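import Pool.Agent.U609.WV.Nil

/-!
The localised Weyl algebra contains no family without relations.
-/

set_option autoImplicit false
set_option linter.unusedSectionVars false

namespace Pool.Agent.U609.WV

open AddMonoidAlgebra (single)

section base
variable {F : Type} [Field F] [CharZero F] {m : ℕ}

lemma ml_one' : ml (1 : PP F m) = 1 := by
  apply LinearMap.ext
  intro x
  rw [ml_apply, one_mul]
  rfl

lemma tt_ti : tt F m * ti F m = 1 := by
  unfold tt ti
  rw [← ml_mul, AddMonoidAlgebra.single_mul_single]
  simp only [Prod.mk_add_mk, add_zero, mul_one]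
  exact ml_one'

lemma ti_tt : ti F m * tt F m = 1 := by
  unfold tt ti
  rw [← ml_mul, AddMonoidAlgebra.single_mul_single]
  simp only [Prod.mk_add_mk, add_zero, mul_one]
  exact ml_one'

/-- Elements commuting with the variables commute with all multiplications. -/
lemma comm_ml {a : Module.End F (PP F m)} (h : a * tt F m = tt F m * a)
    (hs : ∀ j, a * ss F j = ss F j * a) (f : PP F m) : a * ml f = ml f * a := by
  have hmul : ∀ f g : PP F m, a * ml f = ml f * a → a * ml g = ml g * a →
      a * ml (f * g) = ml (f * g) * a := by
    intro f g hf hg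
    rw [ml_mul, ← mul_assoc, hf, mul_assoc, hg, mul_assoc]
  have h1 : a * ml (1 : PP F m) = ml 1 * a := by rw [ml_one', mul_one, one_mul]
  have hti : a * ti F m = ti F m * a := by
    calc a * ti F m = ti F m * tt F m * a * ti F m := by rw [ti_tt, one_mul]
      _ = ti F m * (a * tt F m) * ti F m := by rw [h]; noncomm_ring
      _ = ti F m * a * (tt F m * ti F m) := by noncomm_ring
      _ = ti F m * a := by rw [tt_ti, mul_one]
  have hn : ∀ n : ℤ, a * ml (single (n, 0) 1 : PP F m) = ml (single (n, 0) 1) * a := by
    intro n
    induction n using Int.induction_on with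
    | zero => exact h1
    | succ n ih =>
      have h2 : (single ((n : ℤ) + 1, 0) 1 : PP F m) = single ((n : ℤ), 0) 1 * single (1, 0) 1 := by
        rw [AddMonoidAlgebra.single_mul_single, Prod.mk_add_mk, add_zero, mul_one]
      rw [h2]
      exact hmul _ _ ih h
    | pred n ih =>
      have h2 : (single (-(n : ℤ) - 1, 0) 1 : PP F m) =
          single (-(n : ℤ), 0) 1 * single (-1, 0) 1 := by
        rw [AddMonoidAlgebra.single_mul_single, Prod.mk_add_mk, add_zero, mul_one]
        rfl
      rw [h2]
      exact hmul _ _ ih hti
  have hb : ∀ b : Fin m →₀ ℕ, a * ml (single (0, b) 1 : PP F m) = ml (single (0, b) 1) * a := by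
    intro b
    induction b using Finsupp.induction_linear with
    | zero => exact h1
    | add b c hb hc =>
      have h2 : (single (0, b + c) 1 : PP F m) = single (0, b) 1 * single (0, c) 1 := by
        rw [AddMonoidAlgebra.single_mul_single, Prod.mk_add_mk, add_zero, mul_one]
      rw [h2]
      exact hmul _ _ hb hc
    | single j k =>
      induction k with
      | zero => rw [Finsupp.single_zero]; exact h1
      | succ k ih =>
        have h2 : (single (0, Finsupp.single j (k + 1)) 1 : PP F m) =
            single (0, Finsupp.single j k) 1 * single (0, Finsupp.single j 1) 1 := by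
          rw [AddMonoidAlgebra.single_mul_single, Prod.mk_add_mk, add_zero, mul_one,
            ← Finsupp.single_add]
        rw [h2]
        exact hmul _ _ ih (hs j)
  induction f using AddMonoidAlgebra.induction_linear with
  | zero =>
    have : ml (0 : PP F m) = 0 := by apply LinearMap.ext; intro x; rw [ml_apply, zero_mul]; rfl
    rw [this, mul_zero, zero_mul]
  | add x y hx hy =>
    have : ml (x + y) = ml x + ml y := by
      apply LinearMap.ext; intro z; rw [LinearMap.add_apply, ml_apply, ml_apply, ml_apply, add_mul]
    rw [this, mul_add, add_mul, hx, hy]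
  | single v c =>
    have h2 : (single v c : PP F m) = single (v.1, 0) 1 * single (0, v.2) 1 * algebraMap F _ c := by
      rw [AddMonoidAlgebra.single_mul_single, Prod.mk_add_mk, add_zero, zero_add, mul_one,
        mul_comm, ← Algebra.smul_def, AddMonoidAlgebra.smul_single, smul_eq_mul, mul_one]
    rw [h2]
    apply hmul _ _ (hmul _ _ (hn _) (hb _))
    have h3 : ml (algebraMap F (PP F m) c) = algebraMap F _ c := by
      apply LinearMap.ext
      intro x
      rw [ml_apply, Module.algebraMap_end_apply, Algebra.smul_def]
    rw [h3]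
    exact (Algebra.commutes c a).symm

lemma eq_ml {a : Module.End F (PP F m)} (h : a * tt F m = tt F m * a)
    (hs : ∀ j, a * ss F j = ss F j * a) : a = ml (a 1) := by
  apply LinearMap.ext
  intro f
  have h1 := LinearMap.congr_fun (comm_ml h hs f) 1
  rw [Module.End.mul_apply, Module.End.mul_apply, ml_apply, ml_apply, mul_one] at h1
  rw [h1, ml_apply, mul_comm]

lemma coeff_ds (j : Fin m) (g : PP F m) (n : ℤ) (b : Fin m →₀ ℕ) :
    (ds F j g).coeff (n, b) = ((b j + 1 : ℕ) : F) * g.coeff (n, b + Finsupp.single j 1) := by
  classical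
  induction g using AddMonoidAlgebra.induction_linear with
  | zero => simp
  | add x y hx hy => rw [map_add, AddMonoidAlgebra.coeff_add, AddMonoidAlgebra.coeff_add,
      Finsupp.add_apply, Finsupp.add_apply, hx, hy, mul_add]
  | single v c =>
    obtain ⟨k, a⟩ := v
    rw [ds_mon, AddMonoidAlgebra.coeff_single, AddMonoidAlgebra.coeff_single,
      Finsupp.single_apply, Finsupp.single_apply]
    by_cases h : (k, a) = (n, b + Finsupp.single j 1)
    · rw [if_pos h]
      obtain ⟨rfl, rfl⟩ := Prod.mk.inj h
      dsimp only
      rw [add_tsub_cancel_right, if_pos rfl]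
      simp
      ring
    · rw [if_neg h, mul_zero]
      split_ifs with h1
      · obtain ⟨rfl, h2⟩ := Prod.mk.inj h1
        dsimp only at h2 ⊢
        have h3 : a j = 0 := by
          by_contra h0
          apply h
          rw [← h2]
          congr 1
          ext i
          by_cases hi : j = i
          · subst hi; simp; omega
          · simp [hi]
        rw [h3]
        simp
      · rfl

variable (F m) in
/-- Laurent polynomials in `t` with exponents between `-c` and `c`. -/
noncomputable def Win (c : ℕ) : Submodule F (PP F m) :=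
  Submodule.span F (Set.range fun k : Fin (2 * c + 1) => (single (((k : ℕ) : ℤ) - c, 0) 1 : PP F m))

lemma single_mem_Win {n : ℤ} {c : ℕ} (h : |n| ≤ c) : (single (n, 0) 1 : PP F m) ∈ Win F m c := by
  rw [abs_le] at h
  refine Submodule.subset_span ⟨⟨(n + c).toNat, by omega⟩, ?_⟩
  dsimp only
  congr 2
  rw [Int.toNat_of_nonneg (by omega)]
  ring

lemma Win_mono {c d : ℕ} (h : c ≤ d) : Win F m c ≤ Win F m d := by
  unfold Win
  rw [Submodule.span_le]
  rintro _ ⟨k, rfl⟩
  apply single_mem_Win
  rw [abs_le]
  constructor
  · omega
  · have := k.2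
    omega

lemma Win_mul {c d : ℕ} {f g : PP F m} (hf : f ∈ Win F m c) (hg : g ∈ Win F m d) :
    f * g ∈ Win F m (c + d) := by
  unfold Win at hf
  induction hf using Submodule.span_induction with
  | mem x hx =>
    obtain ⟨k, rfl⟩ := hx
    unfold Win at hg
    induction hg using Submodule.span_induction with
    | mem y hy =>
      obtain ⟨l, rfl⟩ := hy
      dsimp only
      rw [AddMonoidAlgebra.single_mul_single, Prod.mk_add_mk, add_zero, mul_one]
      apply single_mem_Win
      rw [abs_le]
      have h1 := k.2
      have h2 := l.2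
      push_cast
      constructor <;> omega
    | zero => rw [mul_zero]; exact Submodule.zero_mem _
    | add y z _ _ hy hz => rw [mul_add]; exact Submodule.add_mem _ hy hz
    | smul r y _ hy => rw [mul_smul_comm]; exact Submodule.smul_mem _ _ hy
  | zero => rw [zero_mul]; exact Submodule.zero_mem _
  | add y z _ _ hy hz => rw [add_mul]; exact Submodule.add_mem _ hy hz
  | smul r y _ hy => rw [smul_mul_assoc]; exact Submodule.smul_mem _ _ hy

lemma one_mem_Win : (1 : PP F m) ∈ Win F m 0 := single_mem_Win (by simp)

lemma Win_pow {c : ℕ} {f : PP F m} (hf : f ∈ Win F m c) (n : ℕ) : f ^ n ∈ Win F m (n * c) := by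
  induction n with
  | zero => rw [pow_zero, zero_mul]; exact one_mem_Win
  | succ n ih => rw [pow_succ, add_mul, one_mul]; exact Win_mul ih hf

lemma exists_Win {g : PP F m} (hg : ∀ v, g.coeff v ≠ 0 → v.2 = 0) : ∃ c, g ∈ Win F m c := by
  classical
  refine ⟨∑ v ∈ g.coeff.support, v.1.natAbs, ?_⟩
  have h1 : g = ∑ v ∈ g.coeff.support, g.coeff v • single v 1 := by
    apply AddMonoidAlgebra.coeff_injective
    rw [AddMonoidAlgebra.coeff_sum]
    simp only [AddMonoidAlgebra.coeff_smul, AddMonoidAlgebra.coeff_single, Finsupp.smul_single,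
      smul_eq_mul, mul_one]
    exact (Finsupp.sum_single g.coeff).symm
  rw [h1]
  apply Submodule.sum_mem
  intro v hv
  apply Submodule.smul_mem
  have h2 := hg v (Finsupp.mem_support_iff.mp hv)
  have h3 : v = (v.1, 0) := Prod.ext rfl h2
  rw [h3]
  apply Win_mono (c := v.1.natAbs)
  · rw [← h1]
    exact Finset.single_le_sum (f := fun v : ℤ × (Fin m →₀ ℕ) => v.1.natAbs)
      (fun _ _ => Nat.zero_le _) hv
  · apply single_mem_Win
    rw [Int.natCast_natAbs]

lemma finrank_Win (c : ℕ) : Module.finrank F (Win F m c) ≤ 2 * c + 1 := by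
  have := finrank_range_le_card (R := F)
    (b := fun k : Fin (2 * c + 1) => (single (((k : ℕ) : ℤ) - c, 0) 1 : PP F m))
  rw [Fintype.card_fin] at this
  exact this

end base

end Pool.Agent.U609.WV
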