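import Mathlib

/-!
Locally nilpotent derivations and families of elements indexed by Laurent polynomials in two variables.
-/

set_option autoImplicit false
set_option linter.unusedSectionVars false

namespace Pool.Agent.U609.WV

/-- Laurent polynomials in two variables. -/
abbrev LL (F : Type) [Field F] : Type := AddMonoidAlgebra F (ℤ × ℤ)

section chain
variable {F : Type} [Field F] [CharZero F] {E : Type} [Ring E] [Algebra F E]

/-- Families. -/
def IsFam (ρ : LL F →ₗ[F] E) : Prop := (∀ f g, ρ f * ρ g = ρ (f * g) * ρ 1) ∧ ρ 1 ≠ 0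

variable (F) in
/-- No zero divisors and no family without relations. -/
def Good (S : Set E) : Prop :=
  (∀ a ∈ S, ∀ b ∈ S, a * b = 0 → a = 0 ∨ b = 0) ∧
  ∀ ρ : LL F →ₗ[F] E, (∀ f, ρ f ∈ S) → IsFam ρ → ∃ f, f ≠ 0 ∧ ρ f = 0

/-- The degree of an element with respect to a derivation. -/
def HasDeg (δ : Module.End F E) (a : E) (d : ℕ) : Prop := (δ ^ d) a ≠ 0 ∧ (δ ^ (d + 1)) a = 0

variable {δ : Module.End F E}

lemma pow_zero_of_le {a : E} {m n : ℕ} (h : (δ ^ m) a = 0) (hmn : m ≤ n) : (δ ^ n) a = 0 := by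
  obtain ⟨k, rfl⟩ := Nat.exists_eq_add_of_le hmn
  rw [add_comm, pow_add, Module.End.mul_apply, h, map_zero]

lemma HasDeg.unique {a : E} {d d' : ℕ} (h : HasDeg δ a d) (h' : HasDeg δ a d') : d = d' := by
  rcases lt_trichotomy d d' with hlt | rfl | hlt
  · exact absurd (pow_zero_of_le h.2 hlt) h'.1
  · rfl
  · exact absurd (pow_zero_of_le h'.2 hlt) h.1

lemma exists_hasDeg {a : E} (ha : a ≠ 0) (h : ∃ n, (δ ^ n) a = 0) : ∃ d, HasDeg δ a d := by
  classical
  have h1 := Nat.find_spec h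
  have h2 : Nat.find h ≠ 0 := by
    intro h0
    rw [h0, pow_zero] at h1
    exact ha h1
  obtain ⟨d, hd⟩ := Nat.exists_eq_succ_of_ne_zero h2
  refine ⟨d, ?_, ?_⟩
  · exact Nat.find_min h (by omega)
  · rw [Nat.succ_eq_add_one] at hd
    rw [← hd]; exact h1

variable (hδ : ∀ a b, δ (a * b) = δ a * b + a * δ b)

include hδ in
lemma leibniz (n : ℕ) (a b : E) : (δ ^ n) (a * b) =
    ∑ ij ∈ Finset.HasAntidiagonal.antidiagonal n, n.choose ij.1 • ((δ ^ ij.1) a * (δ ^ ij.2) b) := by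
  induction n with
  | zero => simp
  | succ n ih =>
    rw [pow_succ', Module.End.mul_apply, ih, map_sum,
      Finset.sum_antidiagonal_choose_succ_nsmul (M := E) (fun i j => (δ ^ i) a * (δ ^ j) b) n,
      ← Finset.sum_add_distrib]
    apply Finset.sum_congr rfl
    rintro ⟨i, j⟩ hij
    rw [Finset.HasAntidiagonal.mem_antidiagonal] at hij
    have h1 : n.choose j = n.choose i := by
      have : n.choose i = n.choose (n - i) := (Nat.choose_symm (by omega)).symm
      rw [this]; congr 1; omega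
    dsimp only
    rw [map_nsmul, hδ, ← Module.End.mul_apply, ← Module.End.mul_apply, ← pow_succ', ← pow_succ',
      nsmul_add, h1, add_comm]

include hδ in
lemma leading {a b : E} {d e : ℕ} (ha : (δ ^ (d + 1)) a = 0) (hb : (δ ^ (e + 1)) b = 0) :
    (δ ^ (d + e)) (a * b) = (d + e).choose d • ((δ ^ d) a * (δ ^ e) b) ∧
      (δ ^ (d + e + 1)) (a * b) = 0 := by
  constructor
  · rw [leibniz hδ, Finset.sum_eq_single (d, e)]
    · rintro ⟨i, j⟩ hij hne
      rw [Finset.HasAntidiagonal.mem_antidiagonal] at hij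
      dsimp only at hij ⊢
      rcases lt_trichotomy i d with h | h | h
      · rw [pow_zero_of_le hb (by omega), mul_zero, smul_zero]
      · exact absurd (Prod.ext h (by dsimp only; omega)) hne
      · rw [pow_zero_of_le ha (by omega), zero_mul, smul_zero]
    · intro h
      exact (h (Finset.HasAntidiagonal.mem_antidiagonal.mpr (by rfl))).elim
  · rw [leibniz hδ]
    apply Finset.sum_eq_zero
    rintro ⟨i, j⟩ hij
    rw [Finset.HasAntidiagonal.mem_antidiagonal] at hij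
    dsimp only at hij ⊢
    rcases Nat.lt_or_ge d i with h | h
    · rw [pow_zero_of_le ha (by omega), zero_mul, smul_zero]
    · rw [pow_zero_of_le hb (by omega), mul_zero, smul_zero]

include F in
lemma nsmul_cancel {n : ℕ} (hn : n ≠ 0) {a b : E} (h : n • a = n • b) : a = b := by
  have h1 : (n : F) • a = (n : F) • b := by
    rw [Nat.cast_smul_eq_nsmul, Nat.cast_smul_eq_nsmul, h]
  exact smul_right_injective E (Nat.cast_ne_zero.mpr hn : (n : F) ≠ 0) h1

variable {S : Set E} (hmul : ∀ a ∈ S, ∀ b ∈ S, a * b ∈ S) (hS : ∀ a ∈ S, δ a ∈ S)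
  (hnil : ∀ a ∈ S, ∃ n, (δ ^ n) a = 0)
  (hdom : ∀ a ∈ {a ∈ S | δ a = 0}, ∀ b ∈ {a ∈ S | δ a = 0}, a * b = 0 → a = 0 ∨ b = 0)

include hS in
lemma pow_mem_S {a : E} (ha : a ∈ S) (n : ℕ) : (δ ^ n) a ∈ S := by
  induction n with
  | zero => exact ha
  | succ n ih => rw [pow_succ', Module.End.mul_apply]; exact hS _ ih

include hδ hS hdom in
lemma HasDeg.mul {a b : E} (haS : a ∈ S) (hbS : b ∈ S) {d e : ℕ} (ha : HasDeg δ a d)
    (hb : HasDeg δ b e) : HasDeg δ (a * b) (d + e) := by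
  obtain ⟨h1, h2⟩ := leading hδ ha.2 hb.2
  refine ⟨?_, h2⟩
  rw [h1]
  intro h3
  have hne : (d + e).choose d ≠ 0 := (Nat.choose_pos (Nat.le_add_right d e)).ne'
  have h4 : (δ ^ d) a * (δ ^ e) b = 0 := nsmul_cancel (F := F) hne (by rw [h3, smul_zero])
  have h5 : ∀ {c : E} {k : ℕ}, c ∈ S → HasDeg δ c k → (δ ^ k) c ∈ {a ∈ S | δ a = 0} := by
    intro c k hc hk
    refine ⟨pow_mem_S hS hc k, ?_⟩
    rw [← Module.End.mul_apply, ← pow_succ']
    exact hk.2
  rcases hdom _ (h5 haS ha) _ (h5 hbS hb) h4 with h | h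
  · exact ha.1 h
  · exact hb.1 h

include hδ hS hnil hdom in
lemma dom_step : ∀ a ∈ S, ∀ b ∈ S, a * b = 0 → a = 0 ∨ b = 0 := by
  intro a ha b hb hab
  by_contra hcon
  push Not at hcon
  obtain ⟨d, hd⟩ := exists_hasDeg hcon.1 (hnil a ha)
  obtain ⟨e, he⟩ := exists_hasDeg hcon.2 (hnil b hb)
  have := (HasDeg.mul hδ hS hdom ha hb hd he).1
  rw [hab, map_zero] at this
  exact this rfl

section fam
variable {ρ : LL F →ₗ[F] E} (hρS : ∀ f, ρ f ∈ S) (hρ : IsFam ρ)

include hδ hmul hS hnil hdom hρS hρ in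
lemma deg_ge {d₀ : ℕ} (h0 : HasDeg δ (ρ 1) d₀) {f : LL F} {d : ℕ} (hf : HasDeg δ (ρ f) d) :
    d₀ ≤ d := by
  have hd := dom_step hδ hS hnil hdom
  have hρf : ρ f ≠ 0 := fun h => hf.1 (by rw [h, map_zero])
  -- powers
  have key : ∀ i : ℕ, HasDeg δ (ρ f ^ (i + 1)) ((i + 1) * d) ∧
      ρ f ^ (i + 1) = ρ (f ^ (i + 1)) * ρ 1 ^ i ∧ ρ f ^ (i + 1) ∈ S := by
    intro i
    induction i with
    | zero => simpa using ⟨hf, hρS f⟩
    | succ i ih =>
      obtain ⟨h1, h2, h3⟩ := ih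
      refine ⟨?_, ?_, ?_⟩
      · rw [pow_succ, add_mul (i + 1) 1 d, one_mul]
        exact HasDeg.mul hδ hS hdom h3 (hρS f) h1 hf
      · have hc : ρ 1 * ρ f = ρ f * ρ 1 := by
          rw [hρ.1, hρ.1, one_mul, mul_one]
        have hcp : ρ 1 ^ i * ρ f = ρ f * ρ 1 ^ i := (Commute.pow_left (show Commute (ρ 1) (ρ f) from hc) i)
        rw [pow_succ, h2, mul_assoc, hcp, ← mul_assoc, hρ.1, mul_assoc, ← pow_succ', ← pow_succ]
      · rw [pow_succ]; exact hmul _ h3 _ (hρS f)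
  by_contra hlt
  push Not at hlt
  have h1pow : ∀ i : ℕ, HasDeg δ (ρ 1 ^ (i + 1)) ((i + 1) * d₀) ∧ ρ 1 ^ (i + 1) ∈ S := by
    intro i
    induction i with
    | zero => simpa using ⟨h0, hρS 1⟩
    | succ i ih =>
      refine ⟨?_, ?_⟩
      · rw [pow_succ, add_mul (i + 1) 1 d₀, one_mul]
        exact HasDeg.mul hδ hS hdom ih.2 (hρS 1) ih.1 h0
      · rw [pow_succ]; exact hmul _ ih.2 _ (hρS 1)
  -- take i = d₀
  obtain ⟨k1, k2, -⟩ := key (d₀ + 1)
  obtain ⟨l1, l2⟩ := h1pow d₀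
  have hne : ρ (f ^ (d₀ + 1 + 1)) ≠ 0 := by
    intro h
    rw [h, zero_mul] at k2
    apply k1.1
    rw [k2, map_zero]
  obtain ⟨c, hc⟩ := exists_hasDeg hne (hnil _ (hρS _))
  have h5 := HasDeg.mul hδ hS hdom (hρS _) l2 hc l1
  rw [← k2] at h5
  have h6 := h5.unique k1
  nlinarith

include hδ hmul hS hnil hdom hρS hρ in
lemma deg_le {d₀ : ℕ} (h0 : HasDeg δ (ρ 1) d₀) (f : LL F) : (δ ^ (d₀ + 1)) (ρ f) = 0 := by
  have hd := dom_step hδ hS hnil hdom
  have hmon : ∀ v : ℤ × ℤ, (δ ^ (d₀ + 1)) (ρ (AddMonoidAlgebra.single v 1)) = 0 := by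
    intro v
    have h1 : ρ (AddMonoidAlgebra.single v 1) * ρ (AddMonoidAlgebra.single (-v) 1) = ρ 1 * ρ 1 := by
      rw [hρ.1, AddMonoidAlgebra.single_mul_single, add_neg_cancel, mul_one]
      rfl
    have h2 : ρ 1 * ρ 1 ≠ 0 := by
      intro h
      rcases hd _ (hρS 1) _ (hρS 1) h with h | h <;> exact hρ.2 h
    have h3 : ρ (AddMonoidAlgebra.single v 1) ≠ 0 := by
      intro h; rw [h, zero_mul] at h1; exact h2 h1.symm
    have h4 : ρ (AddMonoidAlgebra.single (-v) 1) ≠ 0 := by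
      intro h; rw [h, mul_zero] at h1; exact h2 h1.symm
    obtain ⟨d, hd1⟩ := exists_hasDeg h3 (hnil _ (hρS _))
    obtain ⟨e, he1⟩ := exists_hasDeg h4 (hnil _ (hρS _))
    have h5 := deg_ge hδ hmul hS hnil hdom hρS hρ h0 hd1
    have h6 := deg_ge hδ hmul hS hnil hdom hρS hρ h0 he1
    have h7 := HasDeg.mul hδ hS hdom (hρS _) (hρS _) hd1 he1
    rw [h1] at h7
    have h8 := h7.unique (HasDeg.mul hδ hS hdom (hρS 1) (hρS 1) h0 h0)
    have h9 : d = d₀ := by omega
    rw [← h9]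
    exact hd1.2
  induction f using AddMonoidAlgebra.induction_linear with
  | zero => rw [map_zero, map_zero]
  | add f g hf hg => rw [map_add, map_add, hf, hg, add_zero]
  | single v c =>
    have : (AddMonoidAlgebra.single v c : LL F) = c • AddMonoidAlgebra.single v 1 := by
      rw [AddMonoidAlgebra.smul_single, smul_eq_mul, mul_one]
    rw [this, map_smul, map_smul, hmon, smul_zero]

end fam

include hδ hmul hS hnil in
/-- One step. -/
theorem step (h : Good F {a ∈ S | δ a = 0}) : Good F S := by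
  have hdom := h.1
  refine ⟨dom_step hδ hS hnil hdom, ?_⟩
  intro ρ hρS hρ
  obtain ⟨d₀, h0⟩ := exists_hasDeg hρ.2 (hnil _ (hρS 1))
  have hle := deg_le hδ hmul hS hnil hdom hρS hρ h0
  obtain ⟨f, hf, hf'⟩ := h.2 ((δ ^ d₀) ∘ₗ ρ) (fun f => ⟨pow_mem_S hS (hρS f) d₀, by
      rw [LinearMap.comp_apply, ← Module.End.mul_apply, ← pow_succ']
      exact hle f⟩) ⟨fun f g => by
        have h1 := (leading hδ (hle f) (hle g)).1
        have h2 := (leading hδ (hle (f * g)) (hle 1)).1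
        rw [hρ.1 f g, h2] at h1
        exact (nsmul_cancel (F := F) (Nat.choose_pos (Nat.le_add_right _ _)).ne' h1).symm,
      h0.1⟩
  refine ⟨f, hf, ?_⟩
  by_contra hne
  obtain ⟨d, hd⟩ := exists_hasDeg hne (hnil _ (hρS f))
  have h1 := deg_ge hδ hmul hS hnil hdom hρS hρ h0 hd
  exact hd.1 (pow_zero_of_le hf' h1)

end chain

section iter
variable {F : Type} [Field F] [CharZero F] {E : Type} [Ring E] [Algebra F E]

/-- Several commuting derivations. -/
theorem chain (D : ℕ → Module.End F E) (hD : ∀ i a b, D i (a * b) = D i a * b + a * D i b)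
    (hcomm : ∀ i j a, D i (D j a) = D j (D i a)) {N : Set E} (hmul : ∀ a ∈ N, ∀ b ∈ N, a * b ∈ N)
    (hN : ∀ i, ∀ a ∈ N, D i a ∈ N) (hnil : ∀ i, ∀ a ∈ N, ∃ n, (D i ^ n) a = 0) (r : ℕ)
    (h : Good F {a ∈ N | ∀ i < r, D i a = 0}) : Good F N := by
  induction r with
  | zero => simpa using h
  | succ r ih =>
    apply ih
    apply step (δ := D r) (hD r)
    · rintro a ⟨ha, ha'⟩ b ⟨hb, hb'⟩
      refine ⟨hmul a ha b hb, fun i hi => ?_⟩
      rw [hD, ha' i hi, hb' i hi, zero_mul, mul_zero, add_zero]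
    · rintro a ⟨ha, ha'⟩
      refine ⟨hN r a ha, fun i hi => ?_⟩
      rw [hcomm, ha' i hi, map_zero]
    · rintro a ⟨ha, -⟩
      exact hnil r a ha
    · convert h using 1
      ext a
      constructor
      · rintro ⟨⟨h1, h2⟩, h3⟩
        refine ⟨h1, fun i hi => ?_⟩
        rcases Nat.lt_succ_iff_lt_or_eq.mp hi with h | rfl
        · exact h2 i h
        · exact h3
      · rintro ⟨h1, h2⟩
        exact ⟨⟨h1, fun i hi => h2 i (by omega)⟩, h2 r (by omega)⟩

end iter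

end Pool.Agent.U609.WV
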