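import Mathlib

/-!
Localised Weyl algebras as algebras of differential operators on Laurent polynomials.
-/

set_option autoImplicit false
set_option linter.unusedSectionVars false

namespace Pool.Agent.U609.WV

open AddMonoidAlgebra (single)

section
variable {F : Type} [Field F] {G V : Type} [AddCommMonoid V] [Module F V]

/-- The linear map with given values on the monomials. -/
noncomputable def onMon (g : G → V) : AddMonoidAlgebra F G →ₗ[F] V :=
  Finsupp.linearCombination F g ∘ₗ (AddMonoidAlgebra.coeffLinearEquiv F).toLinearMap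

lemma onMon_single (g : G → V) (v : G) (c : F) : onMon g (single v c) = c • g v := by
  change Finsupp.linearCombination F g (Finsupp.single v c) = _
  rw [Finsupp.linearCombination_single]

lemma ext_mon {f g : AddMonoidAlgebra F G →ₗ[F] V} (h : ∀ v, f (single v 1) = g (single v 1)) :
    f = g := by
  apply LinearMap.ext
  intro x
  induction x using AddMonoidAlgebra.induction_linear with
  | zero => rw [map_zero, map_zero]
  | add x y hx hy => rw [map_add, map_add, hx, hy]
  | single v c =>
    have h1 : (single v c : AddMonoidAlgebra F G) = c • single v 1 := by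
      rw [AddMonoidAlgebra.smul_single, smul_eq_mul, mul_one]
    rw [h1, map_smul, map_smul, h]

end

section
variable (F : Type) [Field F] (m : ℕ)

/-- The algebra `F[t, t⁻¹, s_1, …, s_m]`. -/
abbrev PP : Type := AddMonoidAlgebra F (ℤ × (Fin m →₀ ℕ))

variable {F m}

/-- Multiplication. -/
noncomputable def ml (f : PP F m) : Module.End F (PP F m) := LinearMap.mulLeft F f

lemma ml_apply (f g : PP F m) : ml f g = f * g := rfl

variable (F m)

/-- The partial derivative with respect to `t`. -/
noncomputable def dt : Module.End F (PP F m) :=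
  onMon fun v => single (v.1 - 1, v.2) (v.1 : F)

variable {m} in
/-- The partial derivative with respect to `s_j`. -/
noncomputable def ds (j : Fin m) : Module.End F (PP F m) :=
  onMon fun v => single (v.1, v.2 - Finsupp.single j 1) (v.2 j : F)

/-- The localised Weyl algebra `F[t, t⁻¹, ∂] ⊗ A_m`. -/
noncomputable def LocWeyl : Subalgebra F (Module.End F (PP F m)) :=
  Algebra.adjoin F (({ml (single (1, 0) 1), ml (single (-1, 0) 1), dt F m} : Set _) ∪
    Set.range (fun j : Fin m => ml (single (0, Finsupp.single j 1) 1)) ∪ Set.range (ds F))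

end

section
variable {F : Type} [Field F] {m : ℕ}

lemma ml_mon (v w : ℤ × (Fin m →₀ ℕ)) (c d : F) : ml (single v c) (single w d) =
    single (v + w) (c * d) := by
  rw [ml_apply, AddMonoidAlgebra.single_mul_single]

lemma dt_mon (w : ℤ × (Fin m →₀ ℕ)) (d : F) : dt F m (single w d) =
    single (w.1 - 1, w.2) (d * w.1) := by
  unfold dt
  rw [onMon_single, AddMonoidAlgebra.smul_single, smul_eq_mul]

lemma ds_mon (j : Fin m) (w : ℤ × (Fin m →₀ ℕ)) (d : F) : ds F j (single w d) =
    single (w.1, w.2 - Finsupp.single j 1) (d * w.2 j) := by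
  unfold ds
  rw [onMon_single, AddMonoidAlgebra.smul_single, smul_eq_mul]

/-- The variable `t`. -/
noncomputable def tt (F : Type) [Field F] (m : ℕ) : Module.End F (PP F m) := ml (single (1, 0) 1)
/-- The inverse of `t`. -/
noncomputable def ti (F : Type) [Field F] (m : ℕ) : Module.End F (PP F m) := ml (single (-1, 0) 1)
/-- The variable `s_j`. -/
noncomputable def ss (F : Type) [Field F] {m : ℕ} (j : Fin m) : Module.End F (PP F m) :=
  ml (single (0, Finsupp.single j 1) 1)

lemma ml_comm (f g : PP F m) : ml f * ml g = ml g * ml f := by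
  apply LinearMap.ext
  intro x
  rw [Module.End.mul_apply, Module.End.mul_apply, ml_apply, ml_apply, ml_apply, ml_apply,
    mul_left_comm]

lemma ml_mul (f g : PP F m) : ml (f * g) = ml f * ml g := by
  apply LinearMap.ext
  intro x
  rw [Module.End.mul_apply, ml_apply, ml_apply, ml_apply, mul_assoc]

lemma dt_tt : dt F m * tt F m - tt F m * dt F m = 1 := by
  apply ext_mon
  rintro ⟨n, a⟩
  simp only [tt, LinearMap.sub_apply, Module.End.mul_apply, ml_mon, dt_mon, Module.End.one_apply,
    Prod.mk_add_mk, zero_add, one_mul]
  have h1 : 1 + n - 1 = n := by ring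
  have h2 : 1 + (n - 1) = n := by ring
  rw [h1, h2, ← AddMonoidAlgebra.single_sub]
  congr 1
  push_cast
  ring

lemma dt_ml0 (b : Fin m →₀ ℕ) : dt F m * ml (single (0, b) 1) = ml (single (0, b) 1) * dt F m := by
  apply ext_mon
  rintro ⟨n, a⟩
  simp only [Module.End.mul_apply, ml_mon, dt_mon, Prod.mk_add_mk, zero_add, one_mul]

lemma dt_ds (j : Fin m) : dt F m * ds F j = ds F j * dt F m := by
  apply ext_mon
  rintro ⟨n, a⟩
  simp only [Module.End.mul_apply, ds_mon, dt_mon, one_mul]
  congr 1
  ring

lemma ds_mln (j : Fin m) (k : ℤ) : ds F j * ml (single (k, 0) 1) = ml (single (k, 0) 1) * ds F j := by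
  apply ext_mon
  rintro ⟨n, a⟩
  simp only [Module.End.mul_apply, ds_mon, ml_mon, Prod.mk_add_mk, zero_add, one_mul]

lemma ds_ss (i j : Fin m) : ds F i * ss F j - ss F j * ds F i = if i = j then 1 else 0 := by
  classical
  apply ext_mon
  rintro ⟨n, a⟩
  simp only [ss, LinearMap.sub_apply, Module.End.mul_apply, ml_mon, ds_mon,
    Prod.mk_add_mk, zero_add, one_mul]
  split_ifs with h
  · subst h
    have h1 : Finsupp.single i 1 + a - Finsupp.single i 1 = a := add_tsub_cancel_left _ _
    rw [h1, Module.End.one_apply]
    rcases Nat.eq_zero_or_pos (a i) with h0 | h0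
    · simp [h0]
    · have h2 : Finsupp.single i 1 + (a - Finsupp.single i 1) = a := by
        ext k
        by_cases hk : i = k
        · subst hk; simp; omega
        · simp [hk]
      rw [h2, ← AddMonoidAlgebra.single_sub]
      congr 1
      simp
  · rw [LinearMap.zero_apply]
    have h3 : (Finsupp.single j 1 + a : Fin m →₀ ℕ) i = a i := by
      simp [Finsupp.single_apply, Ne.symm h]
    rw [h3]
    rcases Nat.eq_zero_or_pos (a i) with h0 | h0
    · simp [h0]
    · have h2 : Finsupp.single j 1 + (a - Finsupp.single i 1) =
          Finsupp.single j 1 + a - Finsupp.single i 1 := by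
        ext k
        by_cases hk : i = k
        · subst hk; simp [Finsupp.single_apply, Ne.symm h]
        · simp [hk]
      rw [h2, ← AddMonoidAlgebra.single_sub, sub_self, AddMonoidAlgebra.single_zero]

lemma ds_ds (i j : Fin m) : ds F i * ds F j = ds F j * ds F i := by
  classical
  apply ext_mon
  rintro ⟨n, a⟩
  simp only [Module.End.mul_apply, ds_mon, one_mul]
  rw [tsub_right_comm]
  by_cases h : i = j
  · subst h; rfl
  · congr 1
    simp [Finsupp.single_apply, h, Ne.symm h]
    ring

end

end Pool.Agent.U609.WV
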