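import Pool.Agent.U609.WV.Simple

/-!
The kernel of a homomorphism onto `A0` is a primitive ideal and not the kernel of any homomorphism to
a localised Weyl algebra.
-/

set_option autoImplicit false
set_option linter.unusedSectionVars false

namespace Pool.Agent.U609.WV

open AddMonoidAlgebra (single)

section final
variable {F : Type} [Field F] [CharZero F]

lemma u28_ne : uu F ^ 28 ≠ 0 := pow_ne_zero 28 uu_ne

/-- A simple module with a vector killed by a given element without left inverse. -/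
lemma simple_of_proper (R : Type) [Ring R] (z : R) (hno : ¬ ∃ g : R, g * z = 1) :
    ∃ (M : Type) (_ : AddCommGroup M) (_ : Module R M), IsSimpleModule R M ∧
      ∃ e : M, e ≠ 0 ∧ z • e = 0 := by
  have hne : Submodule.span R {z} ≠ ⊤ := by
    intro htop
    have h1 : (1 : R) ∈ Submodule.span R {z} := by rw [htop]; trivial
    rw [Submodule.mem_span_singleton] at h1
    obtain ⟨g, hg⟩ := h1
    exact hno ⟨g, hg⟩
  obtain ⟨N, hN, hle⟩ := Ideal.exists_le_maximal (Submodule.span R {z} : Ideal R) hne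
  refine ⟨R ⧸ (N : Submodule R R), inferInstance, inferInstance,
    isSimpleModule_iff_isCoatom.mpr hN.out, Submodule.Quotient.mk 1, ?_, ?_⟩
  · intro h
    rw [Submodule.Quotient.mk_eq_zero] at h
    exact hN.ne_top ((Ideal.eq_top_iff_one _).mpr h)
  · rw [← Submodule.Quotient.mk_smul, Submodule.Quotient.mk_eq_zero, smul_eq_mul, mul_one]
    exact hle (Submodule.subset_span rfl)

/-- A faithful simple module over `A0`. -/
theorem exists_simple_A0 [Uncountable F] : ∃ (M : Type) (_ : AddCommGroup M) (_ : Module (A0 F) M),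
    IsSimpleModule (A0 F) M ∧ ∀ a : A0 F, (∀ x : M, a • x = 0) → a = 0 := by
  obtain ⟨c, hc, hno⟩ := exists_proper (F := F)
  set α : A0 F := ⟨MM F (uu F ^ 11), M11_mem⟩ with hα
  obtain ⟨M, _, _, hsimple, e, he0, hze⟩ := simple_of_proper (A0 F) (algebraMap F (A0 F) c - α)
    (by
      rintro ⟨g, hg⟩
      exact hno ⟨g, g.2, congrArg Subtype.val hg⟩)
  refine ⟨M, inferInstance, inferInstance, hsimple, ?_⟩
  have hαe : ∀ j : ℕ, α ^ j • e = (algebraMap F (A0 F) c) ^ j • e := by
    have h1 : α • e = algebraMap F (A0 F) c • e := by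
      have h0 : (algebraMap F (A0 F) c - α) • e = algebraMap F (A0 F) c • e - α • e :=
        sub_smul _ _ _
      rw [h0] at hze
      exact (sub_eq_zero.mp hze).symm
    intro j
    induction j with
    | zero => rw [pow_zero, pow_zero]
    | succ j ih =>
      have hcomm : α ^ j * algebraMap F (A0 F) c = algebraMap F (A0 F) c * α ^ j :=
        (Algebra.commutes c _).symm
      rw [pow_succ, mul_smul, h1, ← mul_smul, hcomm, mul_smul, ih, ← mul_smul, ← pow_succ']
  intro a ha
  by_contra ha0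
  let I : Module.End F (LL F) → Prop := fun b => ∃ hb : b ∈ A0 F,
    ∀ x : M, (⟨b, hb⟩ : A0 F) • x = 0
  have hI : IsId I := by
    refine ⟨?_, ?_, ?_, ?_⟩
    · rintro b b' ⟨hb, h⟩ ⟨hb', h'⟩
      refine ⟨(A0 F).add_mem hb hb', fun x => ?_⟩
      have : (⟨b + b', (A0 F).add_mem hb hb'⟩ : A0 F) = ⟨b, hb⟩ + ⟨b', hb'⟩ := rfl
      rw [this, add_smul, h, h', add_zero]
    · rintro s hs b ⟨hb, h⟩
      refine ⟨(A0 F).mul_mem hs hb, fun x => ?_⟩
      have : (⟨s * b, (A0 F).mul_mem hs hb⟩ : A0 F) = ⟨s, hs⟩ * ⟨b, hb⟩ := rfl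
      rw [this, mul_smul, h, smul_zero]
    · rintro s hs b ⟨hb, h⟩
      refine ⟨(A0 F).mul_mem hb hs, fun x => ?_⟩
      have : (⟨b * s, (A0 F).mul_mem hb hs⟩ : A0 F) = ⟨b, hb⟩ * ⟨s, hs⟩ := rfl
      rw [this, mul_smul, h]
    · refine ⟨(A0 F).zero_mem, fun x => ?_⟩
      have : (⟨0, (A0 F).zero_mem⟩ : A0 F) = 0 := rfl
      rw [this, zero_smul]
  have hIA : ∀ b, I b → b ∈ A0 F := fun b hb => hb.1
  have haI : I (a : Module.End F (LL F)) := ⟨a.2, ha⟩
  obtain ⟨g, hg0, hg⟩ := hI.exists_fun hIA haI (fun h => ha0 (Subtype.ext h))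
  obtain ⟨j, hj, hj'⟩ := hI.pow_mem hg0 hg
  have h1 : (⟨MM F (uu F ^ 11) ^ j, hj⟩ : A0 F) = α ^ j := rfl
  have h2 := hj' e
  rw [h1, hαe] at h2
  have h3 : algebraMap F (A0 F) (c⁻¹ ^ j) • ((algebraMap F (A0 F) c) ^ j • e) = e := by
    rw [← mul_smul, ← map_pow, ← map_mul, ← mul_pow, inv_mul_cancel₀ hc, one_pow, map_one, one_smul]
  rw [h2, smul_zero] at h3
  exact he0 h3.symm

variable {U : Type} [Ring U] [Algebra F U]

/-- The kernel is primitive. -/
theorem exists_simple [Uncountable F] (Ψ : U →ₐ[F] Module.End F (LL F)) (hΨ : Ψ.range = A0 F) :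
    ∃ (M : Type) (_ : AddCommGroup M) (_ : Module U M), IsSimpleModule U M ∧
      ∀ a : U, Ψ a = 0 ↔ ∀ x : M, a • x = 0 := by
  obtain ⟨M, _, _, hM, hM'⟩ := exists_simple_A0 (F := F)
  have hmem : ∀ a, Ψ a ∈ A0 F := fun a => by rw [← hΨ]; exact ⟨a, rfl⟩
  let ψ : U →+* A0 F := (Ψ : U →+* Module.End F (LL F)).codRestrict (A0 F) hmem
  have hψ : ∀ a, ((ψ a : A0 F) : Module.End F (LL F)) = Ψ a := fun a => rfl
  have hsurj : Function.Surjective ψ := by
    rintro ⟨b, hb⟩
    rw [← hΨ] at hb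
    obtain ⟨a, rfl⟩ := hb
    exact ⟨a, rfl⟩
  let _ : Module U M := Module.compHom M ψ
  have hsm : ∀ (a : U) (x : M), a • x = ψ a • x := fun _ _ => rfl
  refine ⟨M, inferInstance, inferInstance, ?_, fun a => ⟨fun h x => ?_, fun h => ?_⟩⟩
  · have hnt : Nontrivial M := IsSimpleModule.nontrivial (A0 F) M
    rw [isSimpleModule_iff_toSpanSingleton_surjective]
    refine ⟨hnt, fun x hx y => ?_⟩
    obtain ⟨b, hb⟩ := (isSimpleModule_iff_toSpanSingleton_surjective.mp hM).2 x hx y
    obtain ⟨a, rfl⟩ := hsurj b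
    exact ⟨a, hb⟩
  · rw [hsm]
    have : ψ a = 0 := Subtype.ext h
    rw [this, zero_smul]
  · have := hM' (ψ a) (fun x => h x)
    rw [← hψ, this]
    rfl

/-- No homomorphism to a localised Weyl algebra has this kernel. -/
theorem no_map (Ψ : U →ₐ[F] Module.End F (LL F)) (hΨ : Ψ.range = A0 F) (m : ℕ)
    (φ : U →ₐ[F] LocWeyl F m) : ¬ ∀ a, φ a = 0 ↔ Ψ a = 0 := by
  intro hker
  have hlift : ∀ f : LL F, ∃ a : U, Ψ a = MM F (uu F ^ 28 * f) := by
    intro f
    have := M28_mem f
    rw [← hΨ] at this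
    exact this
  choose l hl using hlift
  have heq : ∀ a b : U, Ψ a = Ψ b → φ a = φ b := by
    intro a b hab
    have h1 : φ (a - b) = 0 := (hker _).mpr (by rw [map_sub, hab, sub_self])
    have h2 : φ (a - b) = φ a - φ b := map_sub φ a b
    rw [h2] at h1
    exact sub_eq_zero.mp h1
  let ρ : LL F →ₗ[F] Module.End F (PP F m) :=
    { toFun := fun f => (φ (l f) : Module.End F (PP F m))
      map_add' := fun f g => by
        have : φ (l (f + g)) = φ (l f + l g) := heq _ _ (by
          rw [map_add, hl, hl, hl, mul_add, map_add])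
        rw [this, map_add]
        rfl
      map_smul' := fun c f => by
        have : φ (l (c • f)) = φ (c • l f) := heq _ _ (by
          rw [map_smul, hl, hl, mul_smul_comm, map_smul])
        rw [this, map_smul]
        rfl }
  have hρ : ∀ f, ρ f = (φ (l f) : Module.End F (PP F m)) := fun f => rfl
  obtain ⟨f, hf, hf'⟩ := loc_rel ρ (fun f => (φ (l f)).2) ⟨fun f g => by
    have e1 : φ (l f * l g) = φ (l (f * g) * l 1) := by
      apply heq
      have e : uu F ^ 28 * f * (uu F ^ 28 * g) = uu F ^ 28 * (f * g) * (uu F ^ 28 * 1) := by ring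
      rw [map_mul, map_mul, hl, hl, hl, hl, ← MM_mul, ← MM_mul, e]
    rw [map_mul, map_mul] at e1
    exact congrArg Subtype.val e1, fun h => by
    rw [hρ] at h
    have h1 : φ (l 1) = 0 := Subtype.ext h
    rw [hker, hl] at h1
    have h2 := MM_inj h1
    rw [mul_one] at h2
    exact u28_ne h2⟩
  rw [hρ] at hf'
  have h1 : φ (l f) = 0 := Subtype.ext hf'
  rw [hker, hl] at h1
  rcases mul_eq_zero.mp (MM_inj h1) with h | h
  · exact u28_ne h
  · exact hf h

end final

end Pool.Agent.U609.WV
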