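import Pool.Agent.U609.WV.Two

/-!
The algebra generated by the operators of the two-point representation contains
`(x - y)^28 F[x^±, y^±]`.
-/

set_option autoImplicit false
set_option linter.unusedSectionVars false

namespace Pool.Agent.U609.WV

open AddMonoidAlgebra (single)

section diff
variable {E : Type} [Ring E]

/-- Third difference in the first and the third variable. -/
def D13 (G : ℤ → ℤ → ℤ → E) (m n r : ℤ) : E :=
  G (m + 3) n r - 3 • G (m + 2) n (r + 1) + 3 • G (m + 1) n (r + 2) - G m n (r + 3)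

/-- Third difference in the second and the third variable. -/
def D23 (G : ℤ → ℤ → ℤ → E) (m n r : ℤ) : E :=
  G m (n + 3) r - 3 • G m (n + 2) (r + 1) + 3 • G m (n + 1) (r + 2) - G m n (r + 3)

lemma D_comm (G : ℤ → ℤ → ℤ → E) : D23 (D13 G) = D13 (D23 G) := by
  funext m n r
  simp only [D13, D23, add_assoc, nsmul_sub, nsmul_add]
  norm_num
  abel

lemma D13_zero : D13 (fun _ _ _ => (0 : E)) = fun _ _ _ => 0 := by
  funext m n r
  simp [D13]

lemma D23_zero : D23 (fun _ _ _ => (0 : E)) = fun _ _ _ => 0 := by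
  funext m n r
  simp [D23]

lemma D13_add (G H : ℤ → ℤ → ℤ → E) : D13 (fun m n r => G m n r + H m n r) =
    fun m n r => D13 G m n r + D13 H m n r := by
  funext m n r
  simp only [D13, nsmul_add]
  abel

lemma D23_add (G H : ℤ → ℤ → ℤ → E) : D23 (fun m n r => G m n r + H m n r) =
    fun m n r => D23 G m n r + D23 H m n r := by
  funext m n r
  simp only [D23, nsmul_add]
  abel

end diff

section funs
variable {F : Type} [Field F] [CharZero F]


lemma X_three (m n : ℤ) : (XX F (px F (m + 3))) * (XX F (px F n)) - 3 • ((XX F (px F (m + 2))) * (XX F (px F (n + 1)))) +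
    3 • ((XX F (px F (m + 1))) * (XX F (px F (n + 2)))) - (XX F (px F m)) * (XX F (px F (n + 3))) = 0 := by
  have h1 := X_two (F := F) (m + 1) n
  have h2 := X_two (F := F) m (n + 1)
  rw [show m + 1 + n = m + (n + 1) by ring, ← h2] at h1
  rw [show m + 1 + 2 = m + 3 by ring, show m + 1 + 1 = m + 2 by ring] at h1
  rw [show n + 1 + 2 = n + 3 by ring, show n + 1 + 1 = n + 2 by ring] at h1
  rw [← sub_eq_zero] at h1
  rw [← h1]
  abel

lemma Y_three (m n : ℤ) : (YY F (py F (m + 3))) * (YY F (py F n)) - 3 • ((YY F (py F (m + 2))) * (YY F (py F (n + 1)))) +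
    3 • ((YY F (py F (m + 1))) * (YY F (py F (n + 2)))) - (YY F (py F m)) * (YY F (py F (n + 3))) = 0 := by
  have h1 := Y_two (F := F) (m + 1) n
  have h2 := Y_two (F := F) m (n + 1)
  rw [show m + 1 + n = m + (n + 1) by ring, ← h2] at h1
  rw [show m + 1 + 2 = m + 3 by ring, show m + 1 + 1 = m + 2 by ring] at h1
  rw [show n + 1 + 2 = n + 3 by ring, show n + 1 + 1 = n + 2 by ring] at h1
  rw [← sub_eq_zero] at h1
  rw [← h1]
  abel

lemma pX_three (m n : ℤ) : (MM F (px F (m + 3))) * (XX F (px F n)) - 3 • ((MM F (px F (m + 2))) * (XX F (px F (n + 1)))) +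
    3 • ((MM F (px F (m + 1))) * (XX F (px F (n + 2)))) - (MM F (px F m)) * (XX F (px F (n + 3))) = 0 := by
  have h1 := pX_two (F := F) (m + 1) n
  have h2 := pX_two (F := F) m (n + 1)
  rw [show m + 1 + 2 = m + 3 by ring, show m + 1 + 1 = m + 2 by ring] at h1
  rw [show n + 1 + 2 = n + 3 by ring, show n + 1 + 1 = n + 2 by ring] at h2
  have h3 := congrArg₂ (· - ·) h1 h2
  simp only [sub_zero] at h3
  rw [← h3]
  abel

lemma qY_three (m n : ℤ) : (MM F (py F (m + 3))) * (YY F (py F n)) - 3 • ((MM F (py F (m + 2))) * (YY F (py F (n + 1)))) +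
    3 • ((MM F (py F (m + 1))) * (YY F (py F (n + 2)))) - (MM F (py F m)) * (YY F (py F (n + 3))) = 0 := by
  have h1 := qY_two (F := F) (m + 1) n
  have h2 := qY_two (F := F) m (n + 1)
  rw [show m + 1 + 2 = m + 3 by ring, show m + 1 + 1 = m + 2 by ring] at h1
  rw [show n + 1 + 2 = n + 3 by ring, show n + 1 + 1 = n + 2 by ring] at h2
  have h3 := congrArg₂ (· - ·) h1 h2
  simp only [sub_zero] at h3
  rw [← h3]
  abel

variable (F) in
/-- The second difference of products of generators. -/
noncomputable def KK (m n : ℤ) : Module.End F (LL F) :=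
  ee F (m + 2) * ee F n - 2 • (ee F (m + 1) * ee F (n + 1)) + ee F m * ee F (n + 2)

variable (F) in
/-- Cross terms. -/
noncomputable def C1 (m n : ℤ) : Module.End F (LL F) :=
  (XX F (px F (m + 2))) * (YY F (py F n)) - 2 • ((XX F (px F (m + 1))) * (YY F (py F (n + 1)))) + (XX F (px F m)) * (YY F (py F (n + 2)))

variable (F) in
/-- Cross terms. -/
noncomputable def C2 (m n : ℤ) : Module.End F (LL F) :=
  (YY F (py F (m + 2))) * (XX F (px F n)) - 2 • ((YY F (py F (m + 1))) * (XX F (px F (n + 1)))) + (YY F (py F m)) * (XX F (px F (n + 2)))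

lemma KK_eq (m n : ℤ) : KK F m n = (-4 : F) • (MM F (px F (m + n))) + (-4 : F) • (MM F (py F (m + n))) +
    C1 F m n + C2 F m n := by
  rw [← X_two, ← Y_two]
  unfold KK C1 C2 ee
  noncomm_ring

lemma G_eq (m n r : ℤ) : KK F m n * ee F r =
    ((-4 : F) • ((MM F (px F (m + n))) * (YY F (py F r))) + (-4 : F) • ((MM F (py F (m + n))) * (XX F (px F r)))) +
    (((-4 : F) • ((MM F (px F (m + n))) * (XX F (px F r))) + (-4 : F) • ((MM F (py F (m + n))) * (YY F (py F r)))) +
      ((C1 F m n * (XX F (px F r)) + C2 F m n * (YY F (py F r))) + (C1 F m n * (YY F (py F r)) + C2 F m n * (XX F (px F r))))) := by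
  rw [KK_eq]
  unfold ee
  simp only [add_mul, mul_add, smul_mul_assoc]
  abel

lemma z1 : D13 (fun m n r => (-4 : F) • ((MM F (px F (m + n))) * (XX F (px F r)))) = fun _ _ _ => 0 := by
  funext m n r
  have h := congrArg (fun a => (-4 : F) • a) (pX_three (F := F) (m + n) r)
  simp only [smul_zero] at h
  rw [← h]
  simp only [D13]
  rw [show m + 3 + n = m + n + 3 by ring, show m + 2 + n = m + n + 2 by ring,
    show m + 1 + n = m + n + 1 by ring]
  simp only [smul_sub, smul_add, smul_comm (-4 : F) (3 : ℕ)]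

lemma z2 : D13 (fun m n r => (-4 : F) • ((MM F (py F (m + n))) * (YY F (py F r)))) = fun _ _ _ => 0 := by
  funext m n r
  have h := congrArg (fun a => (-4 : F) • a) (qY_three (F := F) (m + n) r)
  simp only [smul_zero] at h
  rw [← h]
  simp only [D13]
  rw [show m + 3 + n = m + n + 3 by ring, show m + 2 + n = m + n + 2 by ring,
    show m + 1 + n = m + n + 1 by ring]
  simp only [smul_sub, smul_add, smul_comm (-4 : F) (3 : ℕ)]

lemma z3 : D13 (fun m n r => C1 F m n * (XX F (px F r))) = fun _ _ _ => 0 := by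
  funext m n r
  have h1 := X_three (F := F) (m + 2) r
  have h2 := X_three (F := F) (m + 1) r
  have h3 := X_three (F := F) m r
  have key : ∀ a b c : ℤ, (XX F (px F a)) * (YY F (py F b)) * (XX F (px F c)) = (XX F (px F a)) * (XX F (px F c)) * (YY F (py F b)) := by
    intro a b c
    rw [mul_assoc, mul_assoc, XY_comm]
  simp only [D13, C1, add_mul, sub_mul, smul_mul_assoc, key]
  have h4 := congrArg (fun a => a * (YY F (py F n))) h1
  have h5 := congrArg (fun a => a * (YY F (py F (n + 1)))) h2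
  have h6 := congrArg (fun a => a * (YY F (py F (n + 2)))) h3
  simp only [add_mul, sub_mul, smul_mul_assoc, zero_mul] at h4 h5 h6
  rw [show m + 2 + 3 = m + 3 + 2 by ring, show m + 2 + 1 = m + 1 + 2 by ring] at h4
  rw [show m + 1 + 3 = m + 3 + 1 by ring, show m + 1 + 2 = m + 2 + 1 by ring] at h5
  rw [show m + 1 + 2 = m + 2 + 1 by ring] at h4
  rw [show m + 1 + 2 = m + 2 + 1 by ring]
  have h7 : ∀ a b c : Module.End F (LL F), a = 0 → b = 0 → c = 0 → a - 2 • b + c = 0 := by
    rintro a b c rfl rfl rfl; simp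
  refine Eq.trans ?_ (h7 _ _ _ h4 h5 h6)
  simp only [smul_sub, smul_add]
  abel

lemma z4 : D13 (fun m n r => C2 F m n * (YY F (py F r))) = fun _ _ _ => 0 := by
  funext m n r
  have h1 := Y_three (F := F) (m + 2) r
  have h2 := Y_three (F := F) (m + 1) r
  have h3 := Y_three (F := F) m r
  have key : ∀ a b c : ℤ, (YY F (py F a)) * (XX F (px F b)) * (YY F (py F c)) = (YY F (py F a)) * (YY F (py F c)) * (XX F (px F b)) := by
    intro a b c
    rw [mul_assoc, mul_assoc, XY_comm]
  simp only [D13, C2, add_mul, sub_mul, smul_mul_assoc, key]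
  have h4 := congrArg (fun a => a * (XX F (px F n))) h1
  have h5 := congrArg (fun a => a * (XX F (px F (n + 1)))) h2
  have h6 := congrArg (fun a => a * (XX F (px F (n + 2)))) h3
  simp only [add_mul, sub_mul, smul_mul_assoc, zero_mul] at h4 h5 h6
  rw [show m + 2 + 3 = m + 3 + 2 by ring, show m + 2 + 1 = m + 1 + 2 by ring] at h4
  rw [show m + 1 + 3 = m + 3 + 1 by ring, show m + 1 + 2 = m + 2 + 1 by ring] at h5
  rw [show m + 1 + 2 = m + 2 + 1 by ring] at h4
  rw [show m + 1 + 2 = m + 2 + 1 by ring]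
  have h7 : ∀ a b c : Module.End F (LL F), a = 0 → b = 0 → c = 0 → a - 2 • b + c = 0 := by
    rintro a b c rfl rfl rfl; simp
  refine Eq.trans ?_ (h7 _ _ _ h4 h5 h6)
  simp only [smul_sub, smul_add]
  abel

lemma z5 : D23 (fun m n r => C1 F m n * (YY F (py F r))) = fun _ _ _ => 0 := by
  funext m n r
  have h1 := Y_three (F := F) n r
  have h2 := Y_three (F := F) (n + 1) r
  have h3 := Y_three (F := F) (n + 2) r
  simp only [D23, C1, add_mul, sub_mul, smul_mul_assoc, mul_assoc]
  have h4 := congrArg (fun a => (XX F (px F (m + 2))) * a) h1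
  have h5 := congrArg (fun a => (XX F (px F (m + 1))) * a) h2
  have h6 := congrArg (fun a => (XX F (px F m)) * a) h3
  simp only [mul_add, mul_sub, mul_smul_comm, mul_zero] at h4 h5 h6
  rw [show n + 1 + 3 = n + 3 + 1 by ring, show n + 1 + 2 = n + 2 + 1 by ring] at h5
  rw [show n + 2 + 3 = n + 3 + 2 by ring] at h6
  rw [show n + 1 + 2 = n + 2 + 1 by ring]
  have h7 : ∀ a b c : Module.End F (LL F), a = 0 → b = 0 → c = 0 → a - 2 • b + c = 0 := by
    rintro a b c rfl rfl rfl; simp
  refine Eq.trans ?_ (h7 _ _ _ h4 h5 h6)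
  simp only [smul_sub, smul_add]
  abel

lemma z6 : D23 (fun m n r => C2 F m n * (XX F (px F r))) = fun _ _ _ => 0 := by
  funext m n r
  have h1 := X_three (F := F) n r
  have h2 := X_three (F := F) (n + 1) r
  have h3 := X_three (F := F) (n + 2) r
  simp only [D23, C2, add_mul, sub_mul, smul_mul_assoc, mul_assoc]
  have h4 := congrArg (fun a => (YY F (py F (m + 2))) * a) h1
  have h5 := congrArg (fun a => (YY F (py F (m + 1))) * a) h2
  have h6 := congrArg (fun a => (YY F (py F m)) * a) h3
  simp only [mul_add, mul_sub, mul_smul_comm, mul_zero] at h4 h5 h6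
  rw [show n + 1 + 3 = n + 3 + 1 by ring, show n + 1 + 2 = n + 2 + 1 by ring] at h5
  rw [show n + 2 + 3 = n + 3 + 2 by ring] at h6
  rw [show n + 1 + 2 = n + 2 + 1 by ring]
  have h7 : ∀ a b c : Module.End F (LL F), a = 0 → b = 0 → c = 0 → a - 2 • b + c = 0 := by
    rintro a b c rfl rfl rfl; simp
  refine Eq.trans ?_ (h7 _ _ _ h4 h5 h6)
  simp only [smul_sub, smul_add]
  abel

/-- The essential terms. -/
lemma DD_eq : D23 (D13 (fun m n r => KK F m n * ee F r)) =
    D23 (D13 (fun m n r => (-4 : F) • ((MM F (px F (m + n))) * (YY F (py F r))) + (-4 : F) • ((MM F (py F (m + n))) * (XX F (px F r))))) := by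
  have h1 : (fun m n r => KK F m n * ee F r) = _ := funext fun m => funext fun n => funext fun r =>
    G_eq (F := F) m n r
  have hA : D13 (fun m n r => (-4 : F) • ((MM F (px F (m + n))) * (XX F (px F r))) + (-4 : F) • ((MM F (py F (m + n))) * (YY F (py F r)))) =
      fun _ _ _ => 0 := by
    rw [D13_add, z1, z2]
    simp
  have hB : D13 (fun m n r => C1 F m n * (XX F (px F r)) + C2 F m n * (YY F (py F r))) = fun _ _ _ => 0 := by
    rw [D13_add, z3, z4]
    simp
  have hC : D23 (D13 (fun m n r => C1 F m n * (YY F (py F r)) + C2 F m n * (XX F (px F r)))) = fun _ _ _ => 0 := by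
    rw [D_comm, D23_add, z5, z6]
    simp only [add_zero]
    exact D13_zero
  have hBC : D23 (D13 (fun m n r => ((C1 F m n * (XX F (px F r)) + C2 F m n * (YY F (py F r))) +
      (C1 F m n * (YY F (py F r)) + C2 F m n * (XX F (px F r)))))) = fun _ _ _ => 0 := by
    rw [D13_add, hB]
    simp only [zero_add]
    exact hC
  have hD : D23 (D13 fun m n r => (((-4 : F) • ((MM F (px F (m + n))) * (XX F (px F r))) +
      (-4 : F) • ((MM F (py F (m + n))) * (YY F (py F r)))) +
      ((C1 F m n * (XX F (px F r)) + C2 F m n * (YY F (py F r))) + (C1 F m n * (YY F (py F r)) + C2 F m n * (XX F (px F r)))))) =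
      fun _ _ _ => 0 := by
    rw [D13_add, hA]
    simp only [zero_add]
    exact hBC
  rw [h1, D13_add, D23_add, hD]
  simp only [add_zero]

end funs

end Pool.Agent.U609.WV
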