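import Pool.Agent.U609.WV.Final

/-!
The homomorphisms from the enveloping algebras of the Witt algebra and of the Virasoro algebra.
-/

set_option autoImplicit false
set_option linter.unusedSectionVars false

namespace Pool.Agent.U609.WV

open AddMonoidAlgebra (single)

section uea
variable (F : Type) [Field F] {L : Type} [LieRing L] [LieAlgebra F L]

lemma uea_adjoin : Algebra.adjoin F (Set.range (UniversalEnvelopingAlgebra.ι F (L := L))) = ⊤ := by
  rw [eq_top_iff]
  intro x _
  obtain ⟨y, rfl⟩ : ∃ y, UniversalEnvelopingAlgebra.mkAlgHom F L y = x :=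
    Quotient.mk_surjective x
  have h1 : y ∈ Algebra.adjoin F (Set.range (TensorAlgebra.ι F (M := L))) := by
    rw [TensorAlgebra.adjoin_range_ι]
    trivial
  have h2 := Subalgebra.mem_map.mpr
    ⟨y, h1, (rfl : (UniversalEnvelopingAlgebra.mkAlgHom F L) y = _)⟩
  rw [AlgHom.map_adjoin, ← Set.range_comp] at h2
  exact h2

lemma uea_adjoin_basis {κ : Type} (b : Module.Basis κ F L) :
    Algebra.adjoin F (Set.range fun i => UniversalEnvelopingAlgebra.ι F (b i)) = ⊤ := by
  rw [eq_top_iff, ← uea_adjoin F (L := L), Algebra.adjoin_le_iff]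
  rintro _ ⟨x, rfl⟩
  have hx : x ∈ Submodule.span F (Set.range b) := by rw [b.span_eq]; trivial
  induction hx using Submodule.span_induction with
  | mem y hy =>
    obtain ⟨i, rfl⟩ := hy
    exact Algebra.subset_adjoin ⟨i, rfl⟩
  | zero => rw [map_zero]; exact Subalgebra.zero_mem _
  | add y z _ _ hy hz => rw [map_add]; exact Subalgebra.add_mem _ hy hz
  | smul a y _ hy => rw [map_smul]; exact Subalgebra.smul_mem _ hy _

end uea

section br
variable {F : Type} [Field F] [CharZero F]

lemma X_br (m n : ℤ) : XX F (px F m) * XX F (px F n) - XX F (px F n) * XX F (px F m) =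
    ((n : F) - m) • XX F (px F (m + n - 1)) := by
  apply LinearMap.ext
  intro f
  rw [LinearMap.sub_apply, Module.End.mul_apply, Module.End.mul_apply, X_mul, X_mul,
    LinearMap.smul_apply, XX_apply, dx_px, add_comm n m, show m + n - 1 - 1 = m + n - 2 by ring]
  simp only [Algebra.smul_def, map_add, map_mul, map_sub, map_one, map_ofNat]
  push_cast
  ring

lemma Y_br (m n : ℤ) : YY F (py F m) * YY F (py F n) - YY F (py F n) * YY F (py F m) =
    ((n : F) - m) • YY F (py F (m + n - 1)) := by
  apply LinearMap.ext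
  intro f
  rw [LinearMap.sub_apply, Module.End.mul_apply, Module.End.mul_apply, Y_mul, Y_mul,
    LinearMap.smul_apply, YY_apply, dy_py, add_comm n m, show m + n - 1 - 1 = m + n - 2 by ring]
  simp only [Algebra.smul_def, map_add, map_mul, map_sub, map_one, map_neg]
  push_cast
  ring

lemma ee_br (m n : ℤ) : ee F m * ee F n - ee F n * ee F m = ((n : F) - m) • ee F (m + n - 1) := by
  have h1 : ee F m * ee F n - ee F n * ee F m =
      (XX F (px F m) * XX F (px F n) - XX F (px F n) * XX F (px F m)) +
      (YY F (py F m) * YY F (py F n) - YY F (py F n) * YY F (py F m)) := by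
    unfold ee
    rw [add_mul, mul_add, mul_add, add_mul, mul_add, mul_add, XY_comm m n, XY_comm n m]
    abel
  rw [h1, X_br, Y_br, ← smul_add]
  rfl

end br

section hom
variable {F : Type} [Field F] [CharZero F] {L : Type} [LieRing L] [LieAlgebra F L]

/-- A linear map which respects brackets of basis vectors extends to the enveloping algebra. -/
theorem exists_hom {κ : Type} (b : Module.Basis κ F L) (v : κ → Module.End F (LL F))
    (f : L →ₗ[F] Module.End F (LL F)) (hf : ∀ i, f (b i) = v i)
    (h : ∀ i j, f ⁅b i, b j⁆ = v i * v j - v j * v i) :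
    ∃ Ψ : UniversalEnvelopingAlgebra F L →ₐ[F] Module.End F (LL F),
      (∀ i, Ψ (UniversalEnvelopingAlgebra.ι F (b i)) = v i) ∧ Ψ.range = Algebra.adjoin F (Set.range v) := by
  have hbr : ∀ x y : L, f ⁅x, y⁆ = f x * f y - f y * f x := by
    let B1 : L →ₗ[F] L →ₗ[F] Module.End F (LL F) := LinearMap.mk₂ F (fun x y => f ⁅x, y⁆)
      (fun x x' y => by rw [add_lie, map_add]) (fun c x y => by rw [smul_lie, map_smul])
      (fun x y y' => by rw [lie_add, map_add]) (fun c x y => by rw [lie_smul, map_smul])
    let B2 : L →ₗ[F] L →ₗ[F] Module.End F (LL F) :=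
      LinearMap.mk₂ F (fun x y => f x * f y - f y * f x)
      (fun x x' y => by rw [map_add, add_mul, mul_add]; abel)
      (fun c x y => by rw [map_smul, smul_mul_assoc, mul_smul_comm, smul_sub])
      (fun x y y' => by rw [map_add, add_mul, mul_add]; abel)
      (fun c x y => by rw [map_smul, smul_mul_assoc, mul_smul_comm, smul_sub])
    have h1 : B1 = B2 := by
      apply b.ext
      intro i
      apply b.ext
      intro j
      change f ⁅b i, b j⁆ = f (b i) * f (b j) - f (b j) * f (b i)
      rw [h, hf, hf]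
    intro x y
    exact LinearMap.congr_fun (LinearMap.congr_fun h1 x) y
  letI : LieRing (Module.End F (LL F)) := LieRing.ofAssociativeRing
  letI : LieAlgebra F (Module.End F (LL F)) := LieAlgebra.ofAssociativeAlgebra
  let g : L →ₗ⁅F⁆ Module.End F (LL F) := { f with
    map_lie' := by
      intro x y
      change f ⁅x, y⁆ = ⁅f x, f y⁆
      rw [hbr, LieRing.of_associative_ring_bracket] }
  refine ⟨UniversalEnvelopingAlgebra.lift F g, fun i => ?_, ?_⟩
  · rw [UniversalEnvelopingAlgebra.lift_ι_apply]
    exact hf i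
  · rw [← Algebra.map_top, ← uea_adjoin_basis F b, AlgHom.map_adjoin, ← Set.range_comp]
    congr 2
    funext i
    rw [Function.comp_apply, UniversalEnvelopingAlgebra.lift_ι_apply]
    exact hf i

lemma range_shift : Set.range (fun n : ℤ => ee F (n + 1)) = Set.range (ee F) := by
  ext x
  constructor
  · rintro ⟨n, rfl⟩; exact ⟨n + 1, rfl⟩
  · rintro ⟨n, rfl⟩; exact ⟨n - 1, by dsimp only; rw [sub_add_cancel]⟩

/-- The homomorphism from the enveloping algebra of the Witt algebra. -/
theorem witt_hom (e : Module.Basis ℤ F L) (he : ∀ m n : ℤ, ⁅e m, e n⁆ = ((n - m : ℤ) : F) • e (m + n)) :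
    ∃ Ψ : UniversalEnvelopingAlgebra F L →ₐ[F] Module.End F (LL F),
      (∀ n : ℤ, Ψ (UniversalEnvelopingAlgebra.ι F (e n)) = ee F (n + 1)) ∧ Ψ.range = A0 F := by
  obtain ⟨Ψ, h1, h2⟩ := exists_hom e (fun n => ee F (n + 1)) (e.constr F (fun n => ee F (n + 1)))
    (fun i => e.constr_basis F _ i) (fun m n => by
      rw [he, map_smul, e.constr_basis, ee_br]
      rw [show m + 1 + (n + 1) - 1 = m + n + 1 by ring]
      congr 1
      push_cast
      ring)
  refine ⟨Ψ, h1, ?_⟩
  rw [h2, range_shift]
  rfl

/-- The homomorphism from the enveloping algebra of the Virasoro algebra. -/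
theorem vir_hom (e : Module.Basis (Option ℤ) F L) (hz : ∀ x : L, ⁅e none, x⁆ = 0)
    (he : ∀ m n : ℤ, ⁅e (some m), e (some n)⁆ = ((n - m : ℤ) : F) • e (some (m + n)) +
      (if m + n = 0 then (((m : F) ^ 3 - (m : F)) / 12) • e none else 0)) :
    ∃ Ψ : UniversalEnvelopingAlgebra F L →ₐ[F] Module.End F (LL F),
      (∀ n : ℤ, Ψ (UniversalEnvelopingAlgebra.ι F (e (some n))) = ee F (n + 1)) ∧
      Ψ (UniversalEnvelopingAlgebra.ι F (e none)) = 0 ∧ Ψ.range = A0 F := by
  let v : Option ℤ → Module.End F (LL F) := fun i => i.elim 0 (fun n => ee F (n + 1))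
  have hv0 : v none = 0 := rfl
  have hvs : ∀ n, v (some n) = ee F (n + 1) := fun n => rfl
  obtain ⟨Ψ, h1, h2⟩ := exists_hom e v (e.constr F v) (fun i => e.constr_basis F _ i) (by
    intro i j
    rcases i with _ | m
    · rw [hz, map_zero, hv0, zero_mul, mul_zero, sub_zero]
    · rcases j with _ | n
      · have h3 : ⁅e (some m), e none⁆ = 0 := by rw [← lie_skew, hz, neg_zero]
        rw [h3, map_zero, hv0, zero_mul, mul_zero, sub_zero]
      · have h4 : e.constr F v (if m + n = 0 then (((m : F) ^ 3 - (m : F)) / 12) • e none else 0)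
            = 0 := by
          split_ifs
          · rw [map_smul, e.constr_basis, hv0, smul_zero]
          · rw [map_zero]
        rw [he, map_add, h4, add_zero, map_smul, e.constr_basis, hvs, hvs, hvs, ee_br]
        rw [show m + 1 + (n + 1) - 1 = m + n + 1 by ring]
        congr 1
        push_cast
        ring)
  refine ⟨Ψ, fun n => h1 (some n), h1 none, ?_⟩
  rw [h2]
  apply le_antisymm
  · rw [Algebra.adjoin_le_iff]
    rintro _ ⟨i, rfl⟩
    rcases i with _ | n
    · exact (A0 F).zero_mem
    · exact ee_mem _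
  · unfold A0
    rw [← range_shift, Algebra.adjoin_le_iff]
    rintro _ ⟨n, rfl⟩
    exact Algebra.subset_adjoin ⟨some n, rfl⟩

end hom

end Pool.Agent.U609.WV
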