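import Pool.Agent.U609.WV.Base

/-!
The localised Weyl algebra contains no family without relations.
-/

set_option autoImplicit false
set_option linter.unusedSectionVars false

namespace Pool.Agent.U609.WV

open AddMonoidAlgebra (single)

section loc
variable {F : Type} [Field F] [CharZero F] {m : ℕ}

variable (F m) in
/-- The elements whose commutators are considered. -/
noncomputable def zl : List (Module.End F (PP F m)) :=
  tt F m :: (List.ofFn (fun j : Fin m => ss F j) ++ List.ofFn (fun j : Fin m => ds F j))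

lemma mem_zl {z : Module.End F (PP F m)} :
    z ∈ zl F m ↔ z = tt F m ∨ (∃ j, ss F j = z) ∨ ∃ j, ds F j = z := by
  unfold zl
  rw [List.mem_cons, List.mem_append, List.mem_ofFn, List.mem_ofFn]

/-- The generators. -/
def IsGen (g : Module.End F (PP F m)) : Prop :=
  g = tt F m ∨ g = ti F m ∨ g = dt F m ∨ (∃ j, ss F j = g) ∨ ∃ j, ds F j = g

lemma sc_of_eq {E : Type} [Ring E] [Algebra F E] {a b : E} (h : a * b = b * a) : Sc F a b :=
  ⟨0, by rw [h, sub_self, map_zero]⟩

lemma gen_sc {g z : Module.End F (PP F m)} (hg : IsGen g) (hz : z ∈ zl F m) : Sc F g z := by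
  rw [mem_zl] at hz
  rcases hg with rfl | rfl | rfl | ⟨i, rfl⟩ | ⟨i, rfl⟩ <;>
    rcases hz with rfl | ⟨j, rfl⟩ | ⟨j, rfl⟩
  · exact sc_of_eq (ml_comm _ _)
  · exact sc_of_eq (ml_comm _ _)
  · exact sc_of_eq (ds_mln j 1).symm
  · exact sc_of_eq (ml_comm _ _)
  · exact sc_of_eq (ml_comm _ _)
  · exact sc_of_eq (ds_mln j (-1)).symm
  · exact ⟨1, by rw [dt_tt, map_one]⟩
  · exact sc_of_eq (dt_ml0 _)
  · exact sc_of_eq (dt_ds j)
  · exact sc_of_eq (ml_comm _ _)
  · exact sc_of_eq (ml_comm _ _)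
  · apply Sc.symm
    refine ⟨if j = i then 1 else 0, ?_⟩
    rw [ds_ss]
    split_ifs
    · rw [map_one]
    · rw [map_zero]
  · exact sc_of_eq (ds_mln i 1)
  · refine ⟨if i = j then 1 else 0, ?_⟩
    rw [ds_ss]
    split_ifs
    · rw [map_one]
    · rw [map_zero]
  · exact sc_of_eq (ds_ds i j)

lemma zl_gen {z : Module.End F (PP F m)} (hz : z ∈ zl F m) : IsGen z := by
  rw [mem_zl] at hz
  rcases hz with h | h | h
  · exact Or.inl h
  · exact Or.inr (Or.inr (Or.inr (Or.inl h)))
  · exact Or.inr (Or.inr (Or.inr (Or.inr h)))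

lemma loc_le {z : Module.End F (PP F m)} (hz : z ∈ zl F m) : LocWeyl F m ≤ NilS (F := F) z := by
  unfold LocWeyl
  rw [Algebra.adjoin_le_iff]
  rintro g (((rfl | rfl | rfl) | ⟨j, rfl⟩) | ⟨j, rfl⟩)
  · exact (gen_sc (g := tt F m) (Or.inl rfl) hz).mem_NilS
  · exact (gen_sc (g := ti F m) (Or.inr (Or.inl rfl)) hz).mem_NilS
  · exact (gen_sc (g := dt F m) (Or.inr (Or.inr (Or.inl rfl))) hz).mem_NilS
  · exact (gen_sc (g := ss F j) (Or.inr (Or.inr (Or.inr (Or.inl ⟨j, rfl⟩)))) hz).mem_NilS
  · exact (gen_sc (g := ds F j) (Or.inr (Or.inr (Or.inr (Or.inr ⟨j, rfl⟩)))) hz).mem_NilS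

variable (F m) in
/-- The base set. -/
def BS : Set (Module.End F (PP F m)) :=
  {a | (∀ z ∈ zl F m, a ∈ NilS (F := F) z) ∧ ∀ z ∈ zl F m, a * z = z * a}

lemma BS_eq {a : Module.End F (PP F m)} (ha : a ∈ BS F m) : a = ml (a 1) :=
  eq_ml (ha.2 _ (mem_zl.mpr (Or.inl rfl))) (fun j => ha.2 _ (mem_zl.mpr (Or.inr (Or.inl ⟨j, rfl⟩))))

lemma BS_win {a : Module.End F (PP F m)} (ha : a ∈ BS F m) : ∃ c, a 1 ∈ Win F m c := by
  apply exists_Win
  rintro ⟨n, b⟩ hv
  by_contra hb
  dsimp only at hb
  apply hv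
  obtain ⟨j, hj⟩ : ∃ j, b j ≠ 0 := by
    by_contra hcon
    push Not at hcon
    exact hb (Finsupp.ext hcon)
  have h1 := LinearMap.congr_fun (ha.2 _ (mem_zl.mpr (Or.inr (Or.inr ⟨j, rfl⟩)))) 1
  rw [Module.End.mul_apply, Module.End.mul_apply] at h1
  have h2 : ds F j (1 : PP F m) = 0 := by
    have : (1 : PP F m) = single (0, 0) 1 := rfl
    rw [this, ds_mon]
    simp
  rw [h2, map_zero] at h1
  have h3 := coeff_ds j (a 1) n (b - Finsupp.single j 1)
  rw [← h1] at h3
  have h4 : b - Finsupp.single j 1 + Finsupp.single j 1 = b := by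
    ext i
    by_cases hi : j = i
    · subst hi; simp; omega
    · simp [hi]
  rw [h4] at h3
  have h5 : ((((b - Finsupp.single j 1 : Fin m →₀ ℕ) j + 1 : ℕ)) : F) ≠ 0 := Nat.cast_ne_zero.mpr (by omega)
  rw [AddMonoidAlgebra.coeff_zero, Finsupp.zero_apply, eq_comm, mul_eq_zero] at h3
  exact h3.resolve_left h5

lemma ml_inj {f : PP F m} (h : ml f = 0) : f = 0 := by
  have := LinearMap.congr_fun h 1
  rwa [ml_apply, mul_one] at this

theorem good_BS : Good F (BS F m) := by
  constructor
  · intro a ha b hb hab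
    rw [BS_eq ha, BS_eq hb, ← ml_mul] at hab
    have h1 := ml_inj hab
    rcases mul_eq_zero.mp h1 with h | h
    · left
      rw [BS_eq ha, h]
      apply LinearMap.ext; intro x; rw [ml_apply, zero_mul]; rfl
    · right
      rw [BS_eq hb, h]
      apply LinearMap.ext; intro x; rw [ml_apply, zero_mul]; rfl
  · intro ρ hρS hρ
    set r : LL F → PP F m := fun f => ρ f 1 with hr
    have hρr : ∀ f, ρ f = ml (r f) := fun f => BS_eq (hρS f)
    have hrr : ∀ f g, r f * r g = r (f * g) * r 1 := by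
      intro f g
      have h1 := hρ.1 f g
      rw [hρr f, hρr g, hρr (f * g), hρr 1, ← ml_mul, ← ml_mul] at h1
      have := LinearMap.congr_fun h1 1
      rwa [ml_apply, ml_apply, mul_one, mul_one] at this
    have hr1 : r 1 ≠ 0 := by
      intro h
      apply hρ.2
      rw [hρr 1, h]
      apply LinearMap.ext; intro x; rw [ml_apply, zero_mul]; rfl
    set X : LL F := single (1, 0) 1 with hX
    set Y : LL F := single (0, 1) 1 with hY
    have hYp : ∀ j : ℕ, r (Y ^ j) * r 1 ^ j = r Y ^ j * r 1 := by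
      intro j
      induction j with
      | zero => rw [pow_zero, pow_zero, pow_zero, mul_one, one_mul]
      | succ j ih =>
        calc r (Y ^ (j + 1)) * r 1 ^ (j + 1) = (r (Y * Y ^ j) * r 1) * r 1 ^ j := by
              rw [pow_succ' Y j, pow_succ' (r 1) j]; ring
          _ = r Y * (r (Y ^ j) * r 1 ^ j) := by rw [← hrr]; ring
          _ = r Y ^ (j + 1) * r 1 := by rw [ih, pow_succ' (r Y) j]; ring
    have hXY : ∀ i j : ℕ, r (X ^ i * Y ^ j) * r 1 ^ (i + j) = r X ^ i * r Y ^ j * r 1 := by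
      intro i j
      induction i with
      | zero => rw [pow_zero, pow_zero, one_mul, one_mul, zero_add]; exact hYp j
      | succ i ih =>
        calc r (X ^ (i + 1) * Y ^ j) * r 1 ^ (i + 1 + j)
            = (r (X * (X ^ i * Y ^ j)) * r 1) * r 1 ^ (i + j) := by
              rw [pow_succ' X i, mul_assoc X, show i + 1 + j = i + j + 1 by ring,
                pow_succ' (r 1) (i + j)]; ring
          _ = r X * (r (X ^ i * Y ^ j) * r 1 ^ (i + j)) := by rw [← hrr]; ring
          _ = r X ^ (i + 1) * r Y ^ j * r 1 := by rw [ih, pow_succ' (r X) i]; ring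
    obtain ⟨c1, hc1⟩ := BS_win (hρS 1)
    obtain ⟨c2, hc2⟩ := BS_win (hρS X)
    obtain ⟨c3, hc3⟩ := BS_win (hρS Y)
    set c := c1 + c2 + c3 with hc
    have hw1 : r 1 ∈ Win F m c := Win_mono (by omega) hc1
    have hw2 : r X ∈ Win F m c := Win_mono (by omega) hc2
    have hw3 : r Y ∈ Win F m c := Win_mono (by omega) hc3
    set n : ℕ := 4 * c + 3 with hn
    set C : ℕ := (2 * n + 1) * c with hC
    set u : Fin n × Fin n → PP F m := fun ij => r (X ^ (ij.1 : ℕ) * Y ^ (ij.2 : ℕ)) * r 1 ^ (2 * n)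
      with hu
    have huw : ∀ ij, u ij ∈ Win F m C := by
      rintro ⟨i, j⟩
      have hi := i.2
      have hj := j.2
      have h1 : u (i, j) = (r X ^ (i : ℕ) * r Y ^ (j : ℕ) * r 1) * r 1 ^ (2 * n - (i + j)) := by
        rw [← hXY, mul_assoc, ← pow_add]
        change r _ * _ = _
        congr 2
        omega
      rw [h1]
      have h2 := Win_mul (Win_mul (Win_mul (Win_pow hw2 (i : ℕ)) (Win_pow hw3 (j : ℕ))) hw1)
        (Win_pow hw1 (2 * n - (i + j)))
      refine Win_mono ?_ h2
      have h3 : (i : ℕ) * c + j * c + c + (2 * n - (i + j)) * c =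
          ((i : ℕ) + j + 1 + (2 * n - (i + j))) * c := by ring
      rw [h3, hC]
      apply Nat.mul_le_mul_right
      omega
    have hdep : ¬ LinearIndependent F u := by
      intro hli
      have h1 : Module.finrank F (Submodule.span F (Set.range u)) = Fintype.card (Fin n × Fin n) :=
        finrank_span_eq_card hli
      have hfin : Module.Finite F (Win F m C) := Module.Finite.span_of_finite F (Set.finite_range _)
      have h2 : Submodule.span F (Set.range u) ≤ Win F m C := by
        rw [Submodule.span_le]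
        rintro _ ⟨ij, rfl⟩
        exact huw ij
      have h3 := Submodule.finrank_mono h2
      have h4 := finrank_Win (F := F) (m := m) C
      rw [h1, Fintype.card_prod, Fintype.card_fin] at h3
      have h5 : n * n ≤ 2 * C + 1 := h3.trans h4
      rw [hC, hn] at h5
      nlinarith
    rw [Fintype.not_linearIndependent_iff] at hdep
    obtain ⟨g, hg, ij0, hij0⟩ := hdep
    refine ⟨∑ ij, g ij • (X ^ (ij.1 : ℕ) * Y ^ (ij.2 : ℕ)), ?_, ?_⟩
    · intro h
      have h1 : ∀ i j : ℕ, X ^ i * Y ^ j = single ((i : ℤ), (j : ℤ)) 1 := by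
        intro i j
        rw [hX, hY, AddMonoidAlgebra.single_pow, AddMonoidAlgebra.single_pow,
          AddMonoidAlgebra.single_mul_single]
        simp
      have h2 := congrArg (fun f : LL F => f.coeff ((ij0.1 : ℕ), (ij0.2 : ℕ))) h
      simp only [h1, AddMonoidAlgebra.coeff_sum, AddMonoidAlgebra.coeff_smul,
        AddMonoidAlgebra.coeff_single, Finsupp.coe_finsetSum, Finset.sum_apply,
        Finsupp.smul_apply, smul_eq_mul, AddMonoidAlgebra.coeff_zero, Finsupp.zero_apply] at h2
      rw [Finset.sum_eq_single ij0] at h2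
      · rw [Finsupp.single_eq_same, mul_one] at h2
        exact hij0 h2
      · intro ij _ hne
        rw [Finsupp.single_apply, if_neg, mul_zero]
        intro h3
        apply hne
        obtain ⟨h4, h5⟩ := Prod.mk.inj h3
        exact Prod.ext (Fin.ext (by exact_mod_cast h4)) (Fin.ext (by exact_mod_cast h5))
      · intro h; exact absurd (Finset.mem_univ _) h
    · rw [map_sum]
      simp only [map_smul]
      have h1 : ∑ ij, g ij • r (X ^ (ij.1 : ℕ) * Y ^ (ij.2 : ℕ)) = 0 := by
        have h2 : (∑ ij, g ij • r (X ^ (ij.1 : ℕ) * Y ^ (ij.2 : ℕ))) * r 1 ^ (2 * n) = 0 := by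
          rw [Finset.sum_mul, ← hg]
          apply Finset.sum_congr rfl
          intro ij _
          rw [smul_mul_assoc]
        exact (mul_eq_zero.mp h2).resolve_right (pow_ne_zero _ hr1)
      have hml : ∀ (x : F) (y : PP F m), ml (x • y) = x • ml y := by
        intro x y
        apply LinearMap.ext; intro z
        rw [ml_apply, LinearMap.smul_apply, ml_apply, smul_mul_assoc]
      have hmls : ∀ s : Finset (Fin n × Fin n), ∀ q : Fin n × Fin n → PP F m,
          ml (∑ ij ∈ s, q ij) = ∑ ij ∈ s, ml (q ij) := by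
        intro s q
        apply LinearMap.ext; intro z
        rw [ml_apply, LinearMap.sum_apply, Finset.sum_mul]
        rfl
      calc ∑ ij, g ij • ρ (X ^ (ij.1 : ℕ) * Y ^ (ij.2 : ℕ))
          = ml (∑ ij, g ij • r (X ^ (ij.1 : ℕ) * Y ^ (ij.2 : ℕ))) := by
            rw [hmls]
            apply Finset.sum_congr rfl
            intro ij _
            rw [hml, hρr]
        _ = 0 := by
            rw [h1]
            apply LinearMap.ext; intro x; rw [ml_apply, zero_mul]; rfl

/-- The localised Weyl algebra contains no family without relations. -/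
theorem good_loc : Good F {a : Module.End F (PP F m) | ∀ z ∈ zl F m, a ∈ NilS (F := F) z} :=
  good_list (zl F m) (fun _ hz _ hw => gen_sc (zl_gen hz) hw) good_BS

theorem loc_rel (ρ : LL F →ₗ[F] Module.End F (PP F m)) (h : ∀ f, ρ f ∈ LocWeyl F m)
    (hρ : IsFam ρ) : ∃ f, f ≠ 0 ∧ ρ f = 0 :=
  good_loc.2 ρ (fun f _ hz => loc_le hz (h f)) hρ

end loc

end Pool.Agent.U609.WV
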