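import Pool.Agent.U609.WV.Funs

/-!
The algebra generated by the operators of the two-point representation contains
`(x - y)^28 F[x^±, y^±]`.
-/

set_option autoImplicit false
set_option linter.unusedSectionVars false

namespace Pool.Agent.U609.WV

open AddMonoidAlgebra (single)

section mem
variable {F : Type} [Field F] [CharZero F]

variable (F) in
/-- The algebra generated by the operators. -/
noncomputable def A0 : Subalgebra F (Module.End F (LL F)) := Algebra.adjoin F (Set.range (ee F))

variable (F) in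
/-- `x - y`. -/
noncomputable def uu : LL F := px F 1 - py F 1

variable (F) in
/-- The exchange of the two variables. -/
noncomputable def tau : LL F →ₗ[F] LL F := onMon fun v => single (v.2, v.1) 1

lemma tau_mon (v : ℤ × ℤ) (c : F) : tau F (single v c) = single (v.2, v.1) c := by
  unfold tau
  rw [onMon_single, AddMonoidAlgebra.smul_single, smul_eq_mul, mul_one]

lemma tau_mul (f g : LL F) : tau F (f * g) = tau F f * tau F g := by
  induction f using AddMonoidAlgebra.induction_linear with
  | zero => simp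
  | add f f' hf hf' => rw [add_mul, map_add, hf, hf', map_add]; ring
  | single v c =>
    induction g using AddMonoidAlgebra.induction_linear with
    | zero => simp
    | add g g' hg hg' => rw [mul_add, map_add, hg, hg', map_add]; ring
    | single w d =>
      rw [AddMonoidAlgebra.single_mul_single, tau_mon, tau_mon, tau_mon,
        AddMonoidAlgebra.single_mul_single]
      rfl

lemma tau_px (n : ℤ) : tau F (px F n) = py F n := tau_mon _ _
lemma tau_py (n : ℤ) : tau F (py F n) = px F n := tau_mon _ _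

lemma tau_one : tau F (1 : LL F) = 1 := tau_mon _ _

lemma tau_uu : tau F (uu F) = -uu F := by
  unfold uu
  rw [map_sub, tau_px, tau_py]; ring

lemma tau_pow (f : LL F) (n : ℕ) : tau F (f ^ n) = tau F f ^ n := by
  induction n with
  | zero => rw [pow_zero, pow_zero, tau_one]
  | succ n ih => rw [pow_succ, pow_succ, tau_mul, ih]

lemma px2 : px F 2 = px F 1 ^ 2 := by rw [pow_two, ← px_add]; norm_num
lemma px3 : px F 3 = px F 1 ^ 3 := by
  rw [show (3 : ℤ) = 2 + 1 by norm_num, px_add, px2]; ring
lemma py2 : py F 2 = py F 1 ^ 2 := by rw [pow_two, ← py_add]; norm_num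
lemma py3 : py F 3 = py F 1 ^ 3 := by
  rw [show (3 : ℤ) = 2 + 1 by norm_num, py_add, py2]; ring

lemma dg (c : LL F) : D13 (fun m n r => c * (px F (m + n) * py F r)) =
    fun m n r => (c * uu F ^ 3) * (px F (m + n) * py F r) := by
  funext m n r
  simp only [D13, px_add, py_add, px2, px3, py2, py3, nsmul_eq_mul, uu]
  push_cast
  ring

lemma dg' (c : LL F) : D23 (fun m n r => c * (px F (m + n) * py F r)) =
    fun m n r => (c * uu F ^ 3) * (px F (m + n) * py F r) := by
  funext m n r
  simp only [D23, px_add, py_add, px2, px3, py2, py3, nsmul_eq_mul, uu]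
  push_cast
  ring

lemma dh (c : LL F) : D13 (fun m n r => c * (py F (m + n) * px F r)) =
    fun m n r => (c * (-uu F) ^ 3) * (py F (m + n) * px F r) := by
  funext m n r
  simp only [D13, px_add, py_add, px2, px3, py2, py3, nsmul_eq_mul, uu]
  push_cast
  ring

lemma dh' (c : LL F) : D23 (fun m n r => c * (py F (m + n) * px F r)) =
    fun m n r => (c * (-uu F) ^ 3) * (py F (m + n) * px F r) := by
  funext m n r
  simp only [D23, px_add, py_add, px2, px3, py2, py3, nsmul_eq_mul, uu]
  push_cast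
  ring

lemma D13_lin (g h : ℤ → ℤ → ℤ → LL F) :
    D13 (fun m n r => (-4 : F) • (YY F (g m n r) + XX F (h m n r))) =
      fun m n r => (-4 : F) • (YY F (D13 g m n r) + XX F (D13 h m n r)) := by
  funext m n r
  simp only [D13, map_sub, map_add, map_nsmul, smul_sub, smul_add, smul_comm (-4 : F) (3 : ℕ)]
  abel

lemma D23_lin (g h : ℤ → ℤ → ℤ → LL F) :
    D23 (fun m n r => (-4 : F) • (YY F (g m n r) + XX F (h m n r))) =
      fun m n r => (-4 : F) • (YY F (D23 g m n r) + XX F (D23 h m n r)) := by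
  funext m n r
  simp only [D23, map_sub, map_add, map_nsmul, smul_sub, smul_add, smul_comm (-4 : F) (3 : ℕ)]
  abel

lemma DD_val (a b : ℤ) : D23 (D13 (fun m n r => KK F m n * ee F r)) a 0 b =
    (-4 : F) • (YY F (uu F ^ 6 * (px F a * py F b)) + XX F (uu F ^ 6 * (py F a * px F b))) := by
  rw [DD_eq]
  have h1 : (fun m n r : ℤ => (-4 : F) • (MM F (px F (m + n)) * YY F (py F r)) +
      (-4 : F) • (MM F (py F (m + n)) * XX F (px F r))) =
      fun m n r => (-4 : F) • (YY F (1 * (px F (m + n) * py F r)) +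
        XX F (1 * (py F (m + n) * px F r))) := by
    funext m n r
    rw [pY, qX, smul_add, one_mul, one_mul]
  rw [h1, D13_lin, dg, dh, D23_lin, dg', dh']
  dsimp only
  rw [add_zero]
  have e1 : 1 * uu F ^ 3 * uu F ^ 3 * (px F a * py F b) = uu F ^ 6 * (px F a * py F b) := by ring
  have e2 : 1 * (-uu F) ^ 3 * (-uu F) ^ 3 * (py F a * px F b) =
      uu F ^ 6 * (py F a * px F b) := by ring
  rw [e1, e2]

lemma ee_mem (n : ℤ) : ee F n ∈ A0 F := Algebra.subset_adjoin ⟨n, rfl⟩

lemma KK_mem (m n : ℤ) : KK F m n ∈ A0 F :=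
  (A0 F).add_mem ((A0 F).sub_mem ((A0 F).mul_mem (ee_mem _) (ee_mem _))
    ((A0 F).nsmul_mem ((A0 F).mul_mem (ee_mem _) (ee_mem _)) 2))
    ((A0 F).mul_mem (ee_mem _) (ee_mem _))

lemma D13_mem {G : ℤ → ℤ → ℤ → Module.End F (LL F)} (hG : ∀ m n r, G m n r ∈ A0 F) (m n r : ℤ) :
    D13 G m n r ∈ A0 F :=
  (A0 F).sub_mem ((A0 F).add_mem ((A0 F).sub_mem (hG _ _ _) ((A0 F).nsmul_mem (hG _ _ _) 3))
    ((A0 F).nsmul_mem (hG _ _ _) 3)) (hG _ _ _)

lemma D23_mem {G : ℤ → ℤ → ℤ → Module.End F (LL F)} (hG : ∀ m n r, G m n r ∈ A0 F) (m n r : ℤ) :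
    D23 G m n r ∈ A0 F :=
  (A0 F).sub_mem ((A0 F).add_mem ((A0 F).sub_mem (hG _ _ _) ((A0 F).nsmul_mem (hG _ _ _) 3))
    ((A0 F).nsmul_mem (hG _ _ _) 3)) (hG _ _ _)

variable (F) in
/-- The first order operators. -/
noncomputable def TT (g : LL F) : Module.End F (LL F) :=
  YY F (uu F ^ 6 * g) + XX F (uu F ^ 6 * tau F g)

lemma TT_mem (g : LL F) : TT F g ∈ A0 F := by
  unfold TT
  induction g using AddMonoidAlgebra.induction_linear with
  | zero => simp only [map_zero, mul_zero, add_zero]; exact (A0 F).zero_mem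
  | add f g hf hg =>
    have h1 : YY F (uu F ^ 6 * (f + g)) + XX F (uu F ^ 6 * tau F (f + g)) =
        (YY F (uu F ^ 6 * f) + XX F (uu F ^ 6 * tau F f)) +
        (YY F (uu F ^ 6 * g) + XX F (uu F ^ 6 * tau F g)) := by
      rw [map_add, mul_add, mul_add, map_add, map_add]; abel
    rw [h1]
    exact (A0 F).add_mem hf hg
  | single v c =>
    obtain ⟨a, b⟩ := v
    have h1 : (single (a, b) c : LL F) = c • (px F a * py F b) := by
      unfold px py
      rw [AddMonoidAlgebra.single_mul_single, Prod.mk_add_mk, add_zero, zero_add, mul_one,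
        AddMonoidAlgebra.smul_single, smul_eq_mul, mul_one]
    have h2 : tau F (single (a, b) c) = c • (py F a * px F b) := by
      rw [h1, map_smul, tau_mul, tau_px, tau_py]
    rw [h2, h1, mul_smul_comm, mul_smul_comm, map_smul, map_smul, ← smul_add]
    apply (A0 F).smul_mem
    have h3 := D23_mem (D13_mem (fun m n r => (A0 F).mul_mem (KK_mem m n) (ee_mem r))) a 0 b
    rw [DD_val] at h3
    have h4 := (A0 F).smul_mem h3 (-4 : F)⁻¹
    rwa [smul_smul, inv_mul_cancel₀ (by norm_num), one_smul] at h4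

lemma dx_pow (f : LL F) (n : ℕ) : dx F (f ^ n) = n * f ^ (n - 1) * dx F f := by
  induction n with
  | zero =>
    rw [pow_zero, Nat.cast_zero, zero_mul, zero_mul]
    exact (dx_px 0).trans (by simp)
  | succ n ih =>
    rw [pow_succ, dx_mul, ih, Nat.add_sub_cancel]
    rcases n with _ | n
    · simp
    · rw [Nat.add_sub_cancel]
      push_cast
      ring

lemma dy_pow (f : LL F) (n : ℕ) : dy F (f ^ n) = n * f ^ (n - 1) * dy F f := by
  induction n with
  | zero =>
    rw [pow_zero, Nat.cast_zero, zero_mul, zero_mul]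
    exact (dy_py 0).trans (by simp)
  | succ n ih =>
    rw [pow_succ, dy_mul, ih, Nat.add_sub_cancel]
    rcases n with _ | n
    · simp
    · rw [Nat.add_sub_cancel]
      push_cast
      ring

lemma dx_x : dx F (px F 1) = 1 := by rw [dx_px]; simp [px_zero]
lemma dy_y : dy F (py F 1) = 1 := by rw [dy_py]; simp [py_zero]
lemma dx_u : dx F (uu F) = 1 := by unfold uu; rw [map_sub, dx_x, dx_py, sub_zero]
lemma dy_u : dy F (uu F) = -1 := by unfold uu; rw [map_sub, dy_px, dy_y, zero_sub]
lemma dx_one : dx F (1 : LL F) = 0 := dx_py 0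
lemma dy_one : dy F (1 : LL F) = 0 := dy_px 0

lemma XM (k a : LL F) : XX F k * MM F a - MM F a * XX F k = MM F (k * dx F a) := by
  apply LinearMap.ext
  intro f
  rw [LinearMap.sub_apply, Module.End.mul_apply, Module.End.mul_apply, XX_apply, XX_apply, MM_apply,
    MM_apply, MM_apply, dx_mul, mul_add, mul_add, mul_smul_comm]
  simp only [Algebra.smul_def]
  ring

lemma YM (k a : LL F) : YY F k * MM F a - MM F a * YY F k = MM F (k * dy F a) := by
  apply LinearMap.ext
  intro f
  rw [LinearMap.sub_apply, Module.End.mul_apply, Module.End.mul_apply, YY_apply, YY_apply, MM_apply,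
    MM_apply, MM_apply, dy_mul]
  ring

lemma TM (g a : LL F) : TT F g * MM F a - MM F a * TT F g =
    MM F (uu F ^ 6 * g * dy F a + uu F ^ 6 * tau F g * dx F a) := by
  rw [map_add, ← YM, ← XM]
  unfold TT
  noncomm_ring

lemma f11 : TT F (py F 1) * TT F 1 - TT F 1 * TT F (py F 1) - TT F (5 * uu F ^ 6) =
    (-108 : F) • MM F (uu F ^ 11) := by
  have h5 : tau F (5 * uu F ^ 6) = 5 * uu F ^ 6 := by
    have : (5 : LL F) = (5 : F) • 1 := by rw [Algebra.smul_def, mul_one, map_ofNat]
    rw [this, smul_mul_assoc, map_smul, one_mul, tau_pow, tau_uu]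
    ring_nf
  have hdx5 : dx F (5 * uu F ^ 6) = 30 * uu F ^ 5 := by
    have : (5 : LL F) = (5 : F) • 1 := by rw [Algebra.smul_def, mul_one, map_ofNat]
    rw [this, smul_mul_assoc, one_mul, map_smul, dx_pow, dx_u, Algebra.smul_def, map_ofNat]
    push_cast
    ring
  have hdy5 : dy F (5 * uu F ^ 6) = -30 * uu F ^ 5 := by
    have : (5 : LL F) = (5 : F) • 1 := by rw [Algebra.smul_def, mul_one, map_ofNat]
    rw [this, smul_mul_assoc, one_mul, map_smul, dy_pow, dy_u, Algebra.smul_def, map_ofNat]
    push_cast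
    ring
  have h6x : dx F (6 : LL F) = 0 := by
    have : (6 : LL F) = (6 : F) • 1 := by rw [Algebra.smul_def, mul_one, map_ofNat]
    rw [this, map_smul, dx_one, smul_zero]
  have h6y : dy F (6 : LL F) = 0 := by
    have : (6 : LL F) = (6 : F) • 1 := by rw [Algebra.smul_def, mul_one, map_ofNat]
    rw [this, map_smul, dy_one, smul_zero]
  apply LinearMap.ext
  intro f
  unfold TT
  rw [h5, tau_py, tau_one]
  have hx : px F 1 = uu F + py F 1 := by unfold uu; ring
  rw [hx]
  simp only [LinearMap.sub_apply, LinearMap.add_apply, Module.End.mul_apply, LinearMap.smul_apply,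
    XX_apply, YY_apply, MM_apply, map_add, map_sub, map_smul, dx_mul, dy_mul, dx_pow, dy_pow,
    dx_u, dy_u, dx_py, dy_y, dx_one, dy_one, mul_one, hdx5, hdy5, ← dx_dy f]
  simp only [Algebra.smul_def, map_ofNat, map_neg, map_zero, dx_one, dy_one, mul_zero, add_zero]
  push_cast
  rw [h6x, h6y]
  ring

end mem

end Pool.Agent.U609.WV
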