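import Pool.Agent.U609.WV.Chain
import Pool.Agent.U609.WV.Defs

/-!
Inner derivations, and the subalgebra on which they are locally nilpotent.
-/

set_option autoImplicit false
set_option linter.unusedSectionVars false

namespace Pool.Agent.U609.WV

open AddMonoidAlgebra (single)

section ad
variable {F : Type} [Field F] {E : Type} [Ring E] [Algebra F E]

variable (F) in
/-- The inner derivation `a ↦ a z - z a`. -/
def ad (z : E) : Module.End F E := LinearMap.mulRight F z - LinearMap.mulLeft F z

lemma ad_apply (z a : E) : ad F z a = a * z - z * a := rfl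

lemma ad_mul (z a b : E) : ad F z (a * b) = ad F z a * b + a * ad F z b := by
  rw [ad_apply, ad_apply, ad_apply]
  noncomm_ring

/-- The commutator of `z` and `w` is a scalar. -/
def Sc (F : Type) [Field F] {E : Type} [Ring E] [Algebra F E] (z w : E) : Prop :=
  ∃ c : F, z * w - w * z = algebraMap F E c

lemma Sc.symm {z w : E} (h : Sc F z w) : Sc F w z := by
  obtain ⟨c, hc⟩ := h
  refine ⟨-c, ?_⟩
  rw [map_neg, ← hc]; abel

lemma Sc.ad_comm {z w : E} (h : Sc F z w) (a : E) : ad F z (ad F w a) = ad F w (ad F z a) := by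
  obtain ⟨c, hc⟩ := h
  have h1 : a * (z * w - w * z) = (z * w - w * z) * a := by rw [hc]; exact (Algebra.commutes c a).symm
  rw [ad_apply, ad_apply, ad_apply, ad_apply]
  have h2 : (a * w - w * a) * z - z * (a * w - w * a) - ((a * z - z * a) * w - w * (a * z - z * a))
      = (z * w - w * z) * a - a * (z * w - w * z) := by noncomm_ring
  rw [← sub_eq_zero, h2, h1, sub_self]

/-- The elements on which the derivation is nilpotent. -/
def NilS [CharZero F] (z : E) : Subalgebra F E where
  carrier := {a | ∃ n, (ad F z ^ n) a = 0}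
  mul_mem' := by
    rintro a b ⟨n, hn⟩ ⟨k, hk⟩
    exact ⟨n + k + 1, (leading (ad_mul z) (pow_zero_of_le hn (Nat.le_succ n))
      (pow_zero_of_le hk (Nat.le_succ k))).2⟩
  add_mem' := by
    rintro a b ⟨n, hn⟩ ⟨k, hk⟩
    exact ⟨n + k, by rw [map_add, pow_zero_of_le hn (Nat.le_add_right n k),
      pow_zero_of_le hk (Nat.le_add_left k n), add_zero]⟩
  algebraMap_mem' := by
    intro r
    refine ⟨1, ?_⟩
    rw [pow_one, ad_apply, Algebra.commutes, sub_self]

lemma mem_NilS [CharZero F] {z a : E} : a ∈ NilS (F := F) z ↔ ∃ n, (ad F z ^ n) a = 0 := Iff.rfl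

lemma Sc.mem_NilS [CharZero F] {z w : E} (h : Sc F w z) : w ∈ NilS (F := F) z := by
  obtain ⟨c, hc⟩ := h
  refine ⟨2, ?_⟩
  rw [pow_two, Module.End.mul_apply, ad_apply, ad_apply, hc, Algebra.commutes, sub_self]

lemma ad_mem_NilS [CharZero F] {z w a : E} (h : Sc F z w) (ha : a ∈ NilS (F := F) z) :
    ad F w a ∈ NilS (F := F) z := by
  obtain ⟨n, hn⟩ := ha
  refine ⟨n, ?_⟩
  have key : ∀ k : ℕ, ∀ b : E, (ad F z ^ k) (ad F w b) = ad F w ((ad F z ^ k) b) := by
    intro k
    induction k with
    | zero => intro b; rfl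
    | succ k ih =>
      intro b
      rw [pow_succ, Module.End.mul_apply, h.ad_comm, ih, Module.End.mul_apply]
  rw [key, hn, map_zero]

/-- A list of elements with scalar commutators. -/
theorem good_list [CharZero F] (l : List E) (hl : ∀ z ∈ l, ∀ w ∈ l, Sc F z w)
    (h : Good F {a : E | (∀ z ∈ l, a ∈ NilS (F := F) z) ∧ ∀ z ∈ l, a * z = z * a}) :
    Good F {a : E | ∀ z ∈ l, a ∈ NilS (F := F) z} := by
  have hsc0 : ∀ z : E, Sc F z 0 := fun z => ⟨0, by rw [mul_zero, zero_mul, sub_self, map_zero]⟩
  have hget : ∀ i, l.getD i 0 = 0 ∨ l.getD i 0 ∈ l := by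
    intro i
    by_cases hi : i < l.length
    · right
      rw [List.getD_eq_getElem _ _ hi]
      exact List.getElem_mem hi
    · left
      exact List.getD_eq_default _ _ (by omega)
  have hSc : ∀ i j, Sc F (l.getD i 0) (l.getD j 0) := by
    intro i j
    rcases hget i with h1 | h1
    · rw [h1]; exact (hsc0 _).symm
    · rcases hget j with h2 | h2
      · rw [h2]; exact hsc0 _
      · exact hl _ h1 _ h2
  have hScl : ∀ z ∈ l, ∀ j, Sc F z (l.getD j 0) := by
    intro z hz j
    rcases hget j with h2 | h2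
    · rw [h2]; exact hsc0 _
    · exact hl _ hz _ h2
  apply chain (fun i => ad F (l.getD i 0)) (fun i a b => ad_mul _ a b)
    (fun i j a => (hSc i j).ad_comm a) (r := l.length)
  · intro a ha b hb z hz
    exact (NilS (F := F) z).mul_mem (ha z hz) (hb z hz)
  · intro i a ha z hz
    exact ad_mem_NilS (hScl z hz i) (ha z hz)
  · intro i a ha
    rcases hget i with h1 | h1
    · rw [h1]
      refine ⟨1, ?_⟩
      rw [pow_one, ad_apply, mul_zero, zero_mul, sub_zero]
    · exact ha _ h1
  · convert h using 1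
    ext a
    constructor
    · rintro ⟨h1, h2⟩
      refine ⟨h1, fun z hz => ?_⟩
      obtain ⟨i, hi, rfl⟩ := List.getElem_of_mem hz
      have := h2 i hi
      rw [List.getD_eq_getElem _ _ hi, ad_apply, sub_eq_zero] at this
      exact this
    · rintro ⟨h1, h2⟩
      refine ⟨h1, fun i hi => ?_⟩
      rw [List.getD_eq_getElem _ _ hi, ad_apply, sub_eq_zero]
      exact h2 _ (List.getElem_mem hi)

end ad

end Pool.Agent.U609.WV
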