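import Pool.Agent.U609.WV.Mem

/-!
Every nonzero two-sided ideal of the algebra `A0` contains a power of `(x - y)^11`.
-/

set_option autoImplicit false
set_option linter.unusedSectionVars false

namespace Pool.Agent.U609.WV

open AddMonoidAlgebra (single)

section prim
variable {F : Type} [Field F] [CharZero F]

lemma M11_mem : MM F (uu F ^ 11) ∈ A0 F := by
  have h1 := (A0 F).sub_mem ((A0 F).sub_mem ((A0 F).mul_mem (TT_mem (py F 1)) (TT_mem 1))
    ((A0 F).mul_mem (TT_mem 1) (TT_mem (py F 1)))) (TT_mem (5 * uu F ^ 6))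
  rw [f11] at h1
  have h4 := (A0 F).smul_mem h1 (-108 : F)⁻¹
  rwa [smul_smul, inv_mul_cancel₀ (by norm_num), one_smul] at h4

lemma com_mem {a b : Module.End F (LL F)} (ha : a ∈ A0 F) (hb : b ∈ A0 F) : a * b - b * a ∈ A0 F :=
  (A0 F).sub_mem ((A0 F).mul_mem ha hb) ((A0 F).mul_mem hb ha)

lemma M16_mem (g : LL F) : MM F (uu F ^ 16 * (g - tau F g)) ∈ A0 F := by
  have h1 := com_mem (TT_mem g) (M11_mem (F := F))
  rw [TM, dx_pow, dy_pow, dx_u, dy_u] at h1
  have h2 : uu F ^ 6 * g * (((11 : ℕ) : LL F) * uu F ^ (11 - 1) * -1) +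
      uu F ^ 6 * tau F g * (((11 : ℕ) : LL F) * uu F ^ (11 - 1) * 1) =
      (-11 : F) • (uu F ^ 16 * (g - tau F g)) := by
    rw [Algebra.smul_def, map_neg, map_ofNat]
    push_cast
    ring
  rw [h2, map_smul] at h1
  have h4 := (A0 F).smul_mem h1 (-11 : F)⁻¹
  rwa [smul_smul, inv_mul_cancel₀ (by norm_num), one_smul] at h4

lemma M27_mem (g : LL F) : MM F (uu F ^ 27 * (g - tau F g)) ∈ A0 F := by
  have h0 : MM F (uu F ^ 22) ∈ A0 F := by
    have : uu F ^ 22 = uu F ^ 11 * uu F ^ 11 := by ring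
    rw [this, MM_mul]
    exact (A0 F).mul_mem M11_mem M11_mem
  have h1 := com_mem (TT_mem g) h0
  rw [TM, dx_pow, dy_pow, dx_u, dy_u] at h1
  have h2 : uu F ^ 6 * g * (((22 : ℕ) : LL F) * uu F ^ (22 - 1) * -1) +
      uu F ^ 6 * tau F g * (((22 : ℕ) : LL F) * uu F ^ (22 - 1) * 1) =
      (-22 : F) • (uu F ^ 27 * (g - tau F g)) := by
    rw [Algebra.smul_def, map_neg, map_ofNat]
    push_cast
    ring
  rw [h2, map_smul] at h1
  have h4 := (A0 F).smul_mem h1 (-22 : F)⁻¹
  rwa [smul_smul, inv_mul_cancel₀ (by norm_num), one_smul] at h4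

lemma M28_mem (g : LL F) : MM F (uu F ^ 28 * g) ∈ A0 F := by
  have h1 := (A0 F).add_mem (M27_mem (uu F * g)) (M16_mem (uu F ^ 12 * g))
  rw [← map_add, tau_mul, tau_mul, tau_pow, tau_uu] at h1
  have h2 : uu F ^ 27 * (uu F * g - -uu F * tau F g) +
      uu F ^ 16 * (uu F ^ 12 * g - (-uu F) ^ 12 * tau F g) = (2 : F) • (uu F ^ 28 * g) := by
    rw [Algebra.smul_def, map_ofNat]
    ring
  rw [h2, map_smul] at h1
  have h4 := (A0 F).smul_mem h1 (2 : F)⁻¹
  rwa [smul_smul, inv_mul_cancel₀ (by norm_num), one_smul] at h4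

lemma Mge_mem {n : ℕ} (hn : 28 ≤ n) (g : LL F) : MM F (uu F ^ n * g) ∈ A0 F := by
  have : uu F ^ n * g = uu F ^ 28 * (uu F ^ (n - 28) * g) := by
    rw [← mul_assoc, ← pow_add]
    congr 2
    omega
  rw [this]
  exact M28_mem _

/-! ### Derivations of Laurent polynomials -/

lemma uu_ne : uu F ≠ 0 := by
  intro h
  have h1 := congrArg (dx F) h
  rw [dx_u, map_zero] at h1
  exact one_ne_zero h1

lemma coeff_xdx (g : LL F) (v : ℤ × ℤ) : (px F 1 * dx F g).coeff v = v.1 * g.coeff v := by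
  classical
  induction g using AddMonoidAlgebra.induction_linear with
  | zero => simp
  | add x y hx hy => rw [map_add, mul_add, AddMonoidAlgebra.coeff_add, AddMonoidAlgebra.coeff_add,
      Finsupp.add_apply, Finsupp.add_apply, hx, hy, mul_add]
  | single w c =>
    unfold px
    rw [dx_mon, AddMonoidAlgebra.single_mul_single, one_mul, AddMonoidAlgebra.coeff_single,
      AddMonoidAlgebra.coeff_single]
    have h1 : ((1, 0) + (w.1 - 1, w.2) : ℤ × ℤ) = w := by ext <;> simp
    rw [h1, Finsupp.single_apply, Finsupp.single_apply]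
    split_ifs with h
    · rw [h]; ring
    · ring

lemma coeff_ydy (g : LL F) (v : ℤ × ℤ) : (py F 1 * dy F g).coeff v = v.2 * g.coeff v := by
  classical
  induction g using AddMonoidAlgebra.induction_linear with
  | zero => simp
  | add x y hx hy => rw [map_add, mul_add, AddMonoidAlgebra.coeff_add, AddMonoidAlgebra.coeff_add,
      Finsupp.add_apply, Finsupp.add_apply, hx, hy, mul_add]
  | single w c =>
    unfold py
    rw [dy_mon, AddMonoidAlgebra.single_mul_single, one_mul, AddMonoidAlgebra.coeff_single,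
      AddMonoidAlgebra.coeff_single]
    have h1 : ((0, 1) + (w.1, w.2 - 1) : ℤ × ℤ) = w := by ext <;> simp
    rw [h1, Finsupp.single_apply, Finsupp.single_apply]
    split_ifs with h
    · rw [h]; ring
    · ring

/-- An ideal of Laurent polynomials stable under the Euler operators is zero or everything. -/
lemma stable_ideal (J : Ideal (LL F)) (hx : ∀ g ∈ J, px F 1 * dx F g ∈ J)
    (hy : ∀ g ∈ J, py F 1 * dy F g ∈ J) {g : LL F} (hg : g ∈ J) (hg0 : g ≠ 0) : (1 : LL F) ∈ J := by
  classical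
  induction hn : g.coeff.support.card using Nat.strong_induction_on generalizing g with
  | _ n ih =>
    subst hn
    obtain ⟨v, hv⟩ : ∃ v, g.coeff v ≠ 0 := by
      by_contra hcon
      push Not at hcon
      apply hg0
      apply AddMonoidAlgebra.coeff_injective
      exact Finsupp.ext hcon
    by_cases hone : ∀ w, g.coeff w ≠ 0 → w = v
    · have h1 : g = single v (g.coeff v) := by
        apply AddMonoidAlgebra.coeff_injective
        ext w
        rw [AddMonoidAlgebra.coeff_single, Finsupp.single_apply]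
        split_ifs with h
        · rw [h]
        · by_contra hw
          exact h (hone w hw).symm
      have h2 : (1 : LL F) = single (-v) (g.coeff v)⁻¹ * g := by
        conv_rhs => rw [h1]
        rw [AddMonoidAlgebra.single_mul_single, neg_add_cancel]
        rw [← h1, inv_mul_cancel₀ hv]
        rfl
      rw [h2]
      exact J.mul_mem_left _ hg
    · push Not at hone
      obtain ⟨w, hw, hwv⟩ := hone
      have key : ∀ (h : LL F), h ∈ J → (∀ z, h.coeff z ≠ 0 → g.coeff z ≠ 0) → h.coeff v = 0 →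
          h.coeff w ≠ 0 → (1 : LL F) ∈ J := by
        intro h hJ hs hv0 hw0
        refine ih h.coeff.support.card ?_ hJ ?_ rfl
        · apply Finset.card_lt_card
          rw [Finset.ssubset_iff_of_subset]
          · exact ⟨v, Finsupp.mem_support_iff.mpr hv, fun hh => Finsupp.mem_support_iff.mp hh hv0⟩
          · intro z hz
            exact Finsupp.mem_support_iff.mpr (hs z (Finsupp.mem_support_iff.mp hz))
        · rintro rfl
          exact hw0 rfl
      by_cases h1 : w.1 = v.1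
      · have h2 : w.2 ≠ v.2 := fun h => hwv (Prod.ext h1 h)
        have hc : ∀ z, (py F 1 * dy F g - (v.2 : F) • g).coeff z = ((z.2 : F) - v.2) * g.coeff z := by
          intro z
          rw [AddMonoidAlgebra.coeff_sub, Finsupp.sub_apply, coeff_ydy, AddMonoidAlgebra.coeff_smul,
            Finsupp.smul_apply, smul_eq_mul]
          ring
        refine key (py F 1 * dy F g - (v.2 : F) • g) (J.sub_mem (hy g hg) ?_) ?_ ?_ ?_
        · rw [Algebra.smul_def]; exact J.mul_mem_left _ hg
        · intro z hz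
          rw [hc] at hz
          exact right_ne_zero_of_mul hz
        · rw [hc, sub_self, zero_mul]
        · rw [hc]
          exact mul_ne_zero (sub_ne_zero.mpr (by exact_mod_cast h2)) hw
      · have hc : ∀ z, (px F 1 * dx F g - (v.1 : F) • g).coeff z = ((z.1 : F) - v.1) * g.coeff z := by
          intro z
          rw [AddMonoidAlgebra.coeff_sub, Finsupp.sub_apply, coeff_xdx, AddMonoidAlgebra.coeff_smul,
            Finsupp.smul_apply, smul_eq_mul]
          ring
        refine key (px F 1 * dx F g - (v.1 : F) • g) (J.sub_mem (hx g hg) ?_) ?_ ?_ ?_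
        · rw [Algebra.smul_def]; exact J.mul_mem_left _ hg
        · intro z hz
          rw [hc] at hz
          exact right_ne_zero_of_mul hz
        · rw [hc, sub_self, zero_mul]
        · rw [hc]
          exact mul_ne_zero (sub_ne_zero.mpr (by exact_mod_cast h1)) hw

/-! ### Ideals of `A0` -/

variable (I : Module.End F (LL F) → Prop)

/-- `I` is the predicate of a two-sided ideal of `A0`. -/
structure IsId : Prop where
  add : ∀ a b, I a → I b → I (a + b)
  left : ∀ a ∈ A0 F, ∀ b, I b → I (a * b)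
  right : ∀ a ∈ A0 F, ∀ b, I b → I (b * a)
  zero : I 0

variable {I}

lemma IsId.smul (h : IsId I) (c : F) {a : Module.End F (LL F)} (ha : I a) : I (c • a) := by
  have := h.left (algebraMap F _ c) ((A0 F).algebraMap_mem c) a ha
  rwa [← Algebra.smul_def] at this

lemma IsId.sub (h : IsId I) {a b : Module.End F (LL F)} (ha : I a) (hb : I b) : I (a - b) := by
  have h1 := h.add _ _ ha (h.smul (-1) hb)
  have h2 : a + (-1 : F) • b = a - b := by
    apply LinearMap.ext
    intro f
    rw [LinearMap.add_apply, LinearMap.smul_apply, LinearMap.sub_apply, neg_smul, one_smul,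
      sub_eq_add_neg]
  rwa [h2] at h1

lemma IsId.com (h : IsId I) {a b : Module.End F (LL F)} (ha : a ∈ A0 F) (hb : I b) :
    I (a * b - b * a) := h.sub (h.left a ha b hb) (h.right a ha b hb)

/-- The functions some multiple of which is in the ideal. -/
def IsId.ideal (h : IsId I) : Ideal (LL F) where
  carrier := {g | ∃ N, 28 ≤ N ∧ I (MM F (uu F ^ N * g))}
  zero_mem' := ⟨28, le_rfl, by rw [mul_zero, map_zero]; exact h.zero⟩
  add_mem' := by
    rintro a b ⟨N, hN, ha⟩ ⟨K, hK, hb⟩
    refine ⟨N + K, by omega, ?_⟩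
    have h1 := h.left _ (Mge_mem hK 1) _ ha
    have h2 := h.left _ (Mge_mem hN 1) _ hb
    rw [← MM_mul] at h1 h2
    have h3 := h.add _ _ h1 h2
    rw [← map_add] at h3
    have h4 : uu F ^ K * 1 * (uu F ^ N * a) + uu F ^ N * 1 * (uu F ^ K * b) =
        uu F ^ (N + K) * (a + b) := by rw [pow_add]; ring
    rwa [h4] at h3
  smul_mem' := by
    rintro c g ⟨N, hN, hg⟩
    refine ⟨28 + N, by omega, ?_⟩
    have h1 := h.left _ (M28_mem c) _ hg
    rw [← MM_mul] at h1
    have h2 : uu F ^ 28 * c * (uu F ^ N * g) = uu F ^ (28 + N) * (c • g) := by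
      rw [pow_add, smul_eq_mul]; ring
    rwa [h2] at h1

lemma IsId.mem_ideal (h : IsId I) {g : LL F} : g ∈ h.ideal ↔ ∃ N, 28 ≤ N ∧ I (MM F (uu F ^ N * g)) :=
  Iff.rfl

lemma IsId.sat (h : IsId I) {g : LL F} (hg : uu F * g ∈ h.ideal) : g ∈ h.ideal := by
  obtain ⟨N, hN, h1⟩ := hg
  refine ⟨N + 1, by omega, ?_⟩
  rwa [pow_succ, mul_assoc]

lemma eM (n : ℤ) (a : LL F) : ee F n * MM F a - MM F a * ee F n =
    MM F (px F n * dx F a + py F n * dy F a) := by
  rw [map_add, ← XM, ← YM]
  unfold ee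
  noncomm_ring

lemma IsId.D0 (h : IsId I) {g : LL F} (hg : g ∈ h.ideal) : dx F g + dy F g ∈ h.ideal := by
  obtain ⟨N, hN, h1⟩ := hg
  refine ⟨N, hN, ?_⟩
  have h2 := h.com (ee_mem 0) h1
  rw [eM, dx_mul, dy_mul, dx_pow, dy_pow, dx_u, dy_u, px_zero, py_zero] at h2
  have h3 : 1 * (((N : ℕ) : LL F) * uu F ^ (N - 1) * 1 * g + uu F ^ N * dx F g) +
      1 * (((N : ℕ) : LL F) * uu F ^ (N - 1) * -1 * g + uu F ^ N * dy F g) =
      uu F ^ N * (dx F g + dy F g) := by ring
  rwa [h3] at h2

lemma IsId.D1 (h : IsId I) {g : LL F} (hg : g ∈ h.ideal) :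
    px F 1 * dx F g + py F 1 * dy F g ∈ h.ideal := by
  obtain ⟨N, hN, h1⟩ := id hg
  have h2 := h.com (ee_mem 1) h1
  rw [eM, dx_mul, dy_mul, dx_pow, dy_pow, dx_u, dy_u] at h2
  have h3 : px F 1 * (((N : ℕ) : LL F) * uu F ^ (N - 1) * 1 * g + uu F ^ N * dx F g) +
      py F 1 * (((N : ℕ) : LL F) * uu F ^ (N - 1) * -1 * g + uu F ^ N * dy F g) =
      uu F ^ N * (px F 1 * dx F g + py F 1 * dy F g + N * g) := by
    obtain ⟨K, rfl⟩ : ∃ K, N = K + 1 := ⟨N - 1, by omega⟩
    rw [Nat.add_sub_cancel, pow_succ]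
    have hx : px F 1 = uu F + py F 1 := by unfold uu; ring
    rw [hx]
    ring
  rw [h3] at h2
  have h4 : px F 1 * dx F g + py F 1 * dy F g + N * g ∈ h.ideal := ⟨N, hN, h2⟩
  have h5 := h.ideal.sub_mem h4 (h.ideal.mul_mem_left (N : LL F) hg)
  rwa [add_sub_cancel_right] at h5

lemma IsId.dx_mem (h : IsId I) {g : LL F} (hg : g ∈ h.ideal) : dx F g ∈ h.ideal := by
  apply h.sat
  have h1 := h.ideal.sub_mem (h.D1 hg) (h.ideal.mul_mem_left (py F 1) (h.D0 hg))
  have h2 : px F 1 * dx F g + py F 1 * dy F g - py F 1 * (dx F g + dy F g) = uu F * dx F g := by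
    unfold uu; ring
  rwa [h2] at h1

lemma IsId.dy_mem (h : IsId I) {g : LL F} (hg : g ∈ h.ideal) : dy F g ∈ h.ideal := by
  have h1 := h.ideal.sub_mem (h.D0 hg) (h.dx_mem hg)
  rwa [add_sub_cancel_left] at h1

lemma MM_pow (f : LL F) (k : ℕ) : MM F f ^ k = MM F (f ^ k) := by
  induction k with
  | zero =>
    rw [pow_zero, pow_zero]
    apply LinearMap.ext; intro g; rw [MM_apply, one_mul]; rfl
  | succ k ih => rw [pow_succ, pow_succ, MM_mul, ih]

/-- If the ideal contains a nonzero function then it contains a power of `(x - y)^11`. -/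
lemma IsId.pow_mem (h : IsId I) {g : LL F} (hg0 : g ≠ 0) (hg : I (MM F g)) :
    ∃ j : ℕ, I (MM F (uu F ^ 11) ^ j) := by
  have h1 : g ∈ h.ideal := by
    refine ⟨28, le_rfl, ?_⟩
    have := h.left _ (M28_mem 1) _ hg
    rw [← MM_mul, mul_one] at this
    exact this
  obtain ⟨N, hN, h2⟩ := stable_ideal h.ideal (fun f hf => h.ideal.mul_mem_left _ (h.dx_mem hf))
    (fun f hf => h.ideal.mul_mem_left _ (h.dy_mem hf)) h1 hg0
  refine ⟨N, ?_⟩
  have h3 := h.left _ (Mge_mem (F := F) (n := 10 * N) (by omega) 1) _ h2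
  rw [← MM_mul] at h3
  have h4 : uu F ^ (10 * N) * 1 * (uu F ^ N * 1) = (uu F ^ 11) ^ N := by
    rw [mul_one, mul_one, ← pow_add, ← pow_mul]; congr 1; ring
  rw [h4] at h3
  rw [MM_pow]
  exact h3

end prim

end Pool.Agent.U609.WV
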