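import Pool.Agent.U609.WV.Prim
import Pool.Agent.U609.WV.Loc

/-!
The algebra `A0` is primitive and does not embed into a localised Weyl algebra.
-/

set_option autoImplicit false
set_option linter.unusedSectionVars false

namespace Pool.Agent.U609.WV

open AddMonoidAlgebra (single)

section simple
variable {F : Type} [Field F] [CharZero F]

lemma MM_comm (f g : LL F) : MM F f * MM F g = MM F g * MM F f := by
  rw [← MM_mul, ← MM_mul, mul_comm]

lemma MM_inj {f : LL F} (h : MM F f = 0) : f = 0 := by
  have := LinearMap.congr_fun h 1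
  rwa [MM_apply, mul_one] at this

lemma A0_nil (g : LL F) : A0 F ≤ NilS (F := F) (MM F g) := by
  unfold A0
  rw [Algebra.adjoin_le_iff]
  rintro _ ⟨n, rfl⟩
  refine ⟨2, ?_⟩
  rw [pow_two, Module.End.mul_apply]
  have h1 : ad F (MM F g) (ee F n) = MM F (px F n * dx F g + py F n * dy F g) := by
    rw [ad_apply, eM]
  rw [h1, ad_apply, MM_comm, sub_self]

/-- Operators commuting with `x` and `y` are multiplications. -/
lemma eq_MM {b : Module.End F (LL F)} (hx : b * MM F (px F 1) = MM F (px F 1) * b)
    (hy : b * MM F (py F 1) = MM F (py F 1) * b) : b = MM F (b 1) := by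
  have hone : MM F (1 : LL F) = 1 := by
    apply LinearMap.ext; intro f; rw [MM_apply, one_mul]; rfl
  have hinv : ∀ f g : LL F, f * g = 1 → b * MM F f = MM F f * b → b * MM F g = MM F g * b := by
    intro f g hfg h
    have h1 : MM F f * MM F g = 1 := by rw [← MM_mul, hfg, hone]
    have h2 : MM F g * MM F f = 1 := by rw [← MM_mul, mul_comm, hfg, hone]
    calc b * MM F g = MM F g * MM F f * b * MM F g := by rw [h2, one_mul]
      _ = MM F g * (b * MM F f) * MM F g := by rw [h]; noncomm_ring
      _ = MM F g * b * (MM F f * MM F g) := by noncomm_ring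
      _ = MM F g * b := by rw [h1, mul_one]
  have hmul : ∀ f g : LL F, b * MM F f = MM F f * b → b * MM F g = MM F g * b →
      b * MM F (f * g) = MM F (f * g) * b := by
    intro f g hf hg
    rw [MM_mul, ← mul_assoc, hf, mul_assoc, hg, mul_assoc]
  have hpx : ∀ n : ℤ, b * MM F (px F n) = MM F (px F n) * b := by
    intro n
    induction n using Int.induction_on with
    | zero => rw [px_zero, hone, mul_one, one_mul]
    | succ n ih => rw [px_add]; exact hmul _ _ ih hx
    | pred n ih =>
      rw [sub_eq_add_neg, px_add]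
      exact hmul _ _ ih (hinv _ _ px_inv hx)
  have hpy : ∀ n : ℤ, b * MM F (py F n) = MM F (py F n) * b := by
    intro n
    induction n using Int.induction_on with
    | zero => rw [py_zero, hone, mul_one, one_mul]
    | succ n ih => rw [py_add]; exact hmul _ _ ih hy
    | pred n ih =>
      rw [sub_eq_add_neg, py_add]
      exact hmul _ _ ih (hinv _ _ py_inv hy)
  have hall : ∀ f : LL F, b * MM F f = MM F f * b := by
    intro f
    induction f using AddMonoidAlgebra.induction_linear with
    | zero => rw [map_zero, mul_zero, zero_mul]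
    | add f g hf hg => rw [map_add, mul_add, add_mul, hf, hg]
    | single v c =>
      have h1 : (single v c : LL F) = c • (px F v.1 * py F v.2) := by
        unfold px py
        rw [AddMonoidAlgebra.single_mul_single, Prod.mk_add_mk, add_zero, zero_add, mul_one,
          AddMonoidAlgebra.smul_single, smul_eq_mul, mul_one]
      rw [h1, map_smul, mul_smul_comm, smul_mul_assoc, hmul _ _ (hpx _) (hpy _)]
  apply LinearMap.ext
  intro f
  have h1 := LinearMap.congr_fun (hall f) 1
  rw [Module.End.mul_apply, Module.End.mul_apply, MM_apply, MM_apply, mul_one] at h1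
  rw [h1, MM_apply, mul_comm]

variable {I : Module.End F (LL F) → Prop}

lemma IsId.ad_mem (h : IsId I) {z b : Module.End F (LL F)} (hz : z ∈ A0 F) (hb : I b) (n : ℕ) :
    I ((ad F z ^ n) b) := by
  induction n with
  | zero => exact hb
  | succ n ih =>
    rw [pow_succ', Module.End.mul_apply, ad_apply]
    exact h.sub (h.right z hz _ ih) (h.left z hz _ ih)

/-- One reduction. -/
lemma IsId.reduce (_h : IsId I) (hI : ∀ b, I b → b ∈ A0 F) (g : LL F) (_hg : MM F g ∈ A0 F)
    {b : Module.End F (LL F)} (hb : I b) (hb0 : b ≠ 0) :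
    ∃ n, (ad F (MM F g) ^ n) b ≠ 0 ∧ (ad F (MM F g) ^ n) b * MM F g =
      MM F g * (ad F (MM F g) ^ n) b := by
  obtain ⟨d, hd⟩ := exists_hasDeg hb0 (A0_nil g (hI b hb))
  refine ⟨d, hd.1, ?_⟩
  have := hd.2
  rw [pow_succ', Module.End.mul_apply, ad_apply, sub_eq_zero] at this
  exact this

lemma com_keep {E : Type} [Ring E] {z w c : E} (hzw : z * w = w * z) (h : c * z = z * c) :
    (c * w - w * c) * z = z * (c * w - w * c) := by
  have h1 : c * w * z = z * (c * w) := by rw [mul_assoc, ← hzw, ← mul_assoc, h, mul_assoc]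
  have h2 : w * c * z = z * (w * c) := by rw [mul_assoc, h, ← mul_assoc, ← hzw, mul_assoc]
  rw [sub_mul, mul_sub, h1, h2]

lemma ad_comm_keep {z w b : Module.End F (LL F)} (hzw : z * w = w * z) (hb : b * z = z * b) (n : ℕ) :
    (ad F w ^ n) b * z = z * (ad F w ^ n) b := by
  induction n with
  | zero => exact hb
  | succ n ih =>
    rw [pow_succ', Module.End.mul_apply, ad_apply]
    exact com_keep hzw ih

/-- A nonzero ideal contains a nonzero function. -/
lemma IsId.exists_fun (h : IsId I) (hI : ∀ b, I b → b ∈ A0 F) {b : Module.End F (LL F)} (hb : I b)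
    (hb0 : b ≠ 0) : ∃ g : LL F, g ≠ 0 ∧ I (MM F g) := by
  obtain ⟨n1, h1, h1'⟩ := h.reduce hI (uu F ^ 28 * 1) (M28_mem 1) hb hb0
  have m1 := h.ad_mem (M28_mem (1 : LL F)) hb n1
  set b1 := (ad F (MM F (uu F ^ 28 * 1)) ^ n1) b with hb1
  obtain ⟨n2, h2, h2'⟩ := h.reduce hI (uu F ^ 28 * px F 1) (M28_mem _) m1 h1
  have m2 := h.ad_mem (M28_mem (px F 1)) m1 n2
  have k2 := ad_comm_keep (MM_comm (uu F ^ 28 * 1) (uu F ^ 28 * px F 1)) h1' n2
  set b2 := (ad F (MM F (uu F ^ 28 * px F 1)) ^ n2) b1 with hb2
  obtain ⟨n3, h3, h3'⟩ := h.reduce hI (uu F ^ 28 * py F 1) (M28_mem _) m2 h2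
  have m3 := h.ad_mem (M28_mem (py F 1)) m2 n3
  have k3 := ad_comm_keep (MM_comm (uu F ^ 28 * 1) (uu F ^ 28 * py F 1)) k2 n3
  have l3 := ad_comm_keep (MM_comm (uu F ^ 28 * px F 1) (uu F ^ 28 * py F 1)) h2' n3
  set b3 := (ad F (MM F (uu F ^ 28 * py F 1)) ^ n3) b2 with hb3
  have cancel : ∀ f : LL F, b3 * MM F (uu F ^ 28 * f) = MM F (uu F ^ 28 * f) * b3 →
      b3 * MM F f = MM F f * b3 := by
    intro f hf
    have e1 : MM F (uu F ^ 28 * 1) * (b3 * MM F f - MM F f * b3) = 0 := by
      have e2 : MM F (uu F ^ 28 * f) = MM F (uu F ^ 28 * 1) * MM F f := by rw [← MM_mul, mul_one]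
      rw [e2] at hf
      calc MM F (uu F ^ 28 * 1) * (b3 * MM F f - MM F f * b3)
          = (MM F (uu F ^ 28 * 1) * b3) * MM F f - MM F (uu F ^ 28 * 1) * MM F f * b3 := by
            rw [mul_sub, ← mul_assoc, ← mul_assoc]
        _ = 0 := by rw [← k3, mul_assoc, hf, sub_self]
    rw [← sub_eq_zero]
    apply LinearMap.ext
    intro g
    have e3 := LinearMap.congr_fun e1 g
    rw [Module.End.mul_apply, MM_apply, LinearMap.zero_apply] at e3
    rw [LinearMap.zero_apply]
    refine (mul_eq_zero.mp e3).resolve_left ?_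
    rw [mul_one]
    exact pow_ne_zero _ uu_ne
  have h4 := eq_MM (cancel _ l3) (cancel _ h3')
  refine ⟨b3 1, fun h5 => h3 ?_, ?_⟩
  · rw [h4, h5, map_zero]
  · rw [← h4]; exact m3

/-! ### Transcendence -/

lemma dx_aeval (f : LL F) (q : Polynomial F) : dx F (Polynomial.aeval f q) =
    Polynomial.aeval f (Polynomial.derivative q) * dx F f := by
  induction q using Polynomial.induction_on' with
  | add p q hp hq => rw [map_add, map_add, hp, hq, map_add, map_add, add_mul]
  | monomial n a =>
    rw [Polynomial.aeval_monomial, Polynomial.derivative_monomial, Polynomial.aeval_monomial,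
      ← Algebra.smul_def, map_smul, dx_pow, map_mul, map_natCast, Algebra.smul_def]
    ring

lemma transc {f : LL F} (hf : dx F f ≠ 0) : ∀ (n : ℕ) (q : Polynomial F), q.natDegree ≤ n →
    Polynomial.aeval f q = 0 → q = 0 := by
  have hconst : ∀ q : Polynomial F, q.natDegree ≤ 0 → Polynomial.aeval f q = 0 → q = 0 := by
    intro q hq h
    rw [Polynomial.eq_C_of_natDegree_le_zero hq, Polynomial.aeval_C] at h
    have h1 : q.coeff 0 = 0 := by
      by_contra h2
      exact h2 ((FaithfulSMul.algebraMap_injective F (LL F)) (by rw [h, map_zero]))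
    rw [Polynomial.eq_C_of_natDegree_le_zero hq, h1, map_zero]
  intro n
  induction n with
  | zero => exact hconst
  | succ n ih =>
    intro q hq h
    have h1 := congrArg (dx F) h
    rw [dx_aeval, map_zero] at h1
    have h2 := (mul_eq_zero.mp h1).resolve_right hf
    have h3 := ih (Polynomial.derivative q)
      ((Polynomial.natDegree_derivative_le q).trans (by omega)) h2
    have h4 := Polynomial.derivative_eq_zero.mp h3
    exact hconst q (by omega) h

lemma MM_aeval (f : LL F) (q : Polynomial F) : Polynomial.aeval (MM F f) q =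
    MM F (Polynomial.aeval f q) := by
  induction q using Polynomial.induction_on' with
  | add p q hp hq => rw [map_add, map_add, map_add, hp, hq]
  | monomial n a =>
    rw [Polynomial.aeval_monomial, Polynomial.aeval_monomial, MM_pow, ← Algebra.smul_def,
      ← Algebra.smul_def, map_smul]

lemma A0_countable : ∃ S : Set (Module.End F (LL F)), S.Countable ∧
    ∀ a ∈ A0 F, a ∈ Submodule.span F S := by
  refine ⟨(Submonoid.closure (Set.range (ee F)) : Set _), ?_, fun a ha => ?_⟩
  · have h1 : (Submonoid.closure (Set.range (ee F)) : Set (Module.End F (LL F))) =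
        Set.range (fun l : List ℤ => (l.map (ee F)).prod) := by
      apply Set.Subset.antisymm
      · intro a ha
        induction ha using Submonoid.closure_induction with
        | mem x hx => obtain ⟨n, rfl⟩ := hx; exact ⟨[n], by simp⟩
        | one => exact ⟨[], rfl⟩
        | mul x y _ _ hx hy =>
          obtain ⟨l, rfl⟩ := hx
          obtain ⟨k, rfl⟩ := hy
          exact ⟨l ++ k, by simp⟩
      · rintro _ ⟨l, rfl⟩
        apply Submonoid.list_prod_mem
        intro x hx
        rw [List.mem_map] at hx
        obtain ⟨n, -, rfl⟩ := hx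
        exact Submonoid.subset_closure ⟨n, rfl⟩
    rw [h1]
    exact Set.countable_range _
  · have h1 : a ∈ Subalgebra.toSubmodule (A0 F) := ha
    unfold A0 at h1
    rw [Algebra.adjoin_eq_span] at h1
    exact h1

/-- Some `c - (x-y)^11` has no left inverse in `A0`. -/
lemma exists_proper [Uncountable F] : ∃ c : F, c ≠ 0 ∧
    ¬ ∃ g ∈ A0 F, g * (algebraMap F _ c - MM F (uu F ^ 11)) = 1 := by
  classical
  by_contra hcon
  push Not at hcon
  obtain ⟨S, hS, hSA⟩ := A0_countable (F := F)
  choose! g hg hg1 using hcon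
  set α := MM F (uu F ^ 11) with hα
  have hli : LinearIndependent F (fun c : {c : F // c ≠ 0} => g c) := by
    rw [linearIndependent_iff']
    intro s w hw i hi
    by_contra hwi
    set p : Finset {c : F // c ≠ 0} → Polynomial F := fun t =>
      ∏ c ∈ t, (Polynomial.C (c : F) - Polynomial.X) with hp
    have h1 : ∀ c ∈ s, g c * Polynomial.aeval α (p s) = Polynomial.aeval α (p (s.erase c)) := by
      intro c hc
      have h2 : p s = (Polynomial.C (c : F) - Polynomial.X) * p (s.erase c) :=
        (Finset.mul_prod_erase s _ hc).symm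
      rw [h2, map_mul, map_sub, Polynomial.aeval_C, Polynomial.aeval_X, ← mul_assoc, hg1 c c.2,
        one_mul]
    have h3 : Polynomial.aeval α (∑ c ∈ s, w c • p (s.erase c)) = 0 := by
      have h4 := congrArg (fun a => a * Polynomial.aeval α (p s)) hw
      simp only [zero_mul, Finset.sum_mul, smul_mul_assoc] at h4
      rw [map_sum, ← h4]
      apply Finset.sum_congr rfl
      intro c hc
      rw [map_smul, h1 c hc]
    rw [hα, MM_aeval] at h3
    have h5 := MM_inj h3
    have hdx : dx F (uu F ^ 11) ≠ 0 := by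
      rw [dx_pow, dx_u, mul_one]
      apply mul_ne_zero _ (pow_ne_zero _ uu_ne)
      intro h6
      have h7 : algebraMap F (LL F) 11 = 0 := by rw [map_ofNat]; exact_mod_cast h6
      have h8 := (FaithfulSMul.algebraMap_injective F (LL F)) (h7.trans (map_zero _).symm)
      norm_num at h8
    have h6 := transc hdx _ _ le_rfl h5
    have h7 := congrArg (Polynomial.eval (i : F)) h6
    rw [Polynomial.eval_finsetSum, Polynomial.eval_zero, Finset.sum_eq_single i] at h7
    · rw [Polynomial.eval_smul, smul_eq_mul, mul_eq_zero] at h7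
      rcases h7 with h7 | h7
      · exact hwi h7
      · rw [hp] at h7
        dsimp only at h7
        rw [Polynomial.eval_prod, Finset.prod_eq_zero_iff] at h7
        obtain ⟨c, hc, hc'⟩ := h7
        rw [Polynomial.eval_sub, Polynomial.eval_C, Polynomial.eval_X, sub_eq_zero] at hc'
        exact (Finset.mem_erase.mp hc).1 (Subtype.ext hc')
    · intro c _ hci
      rw [Polynomial.eval_smul, hp]
      dsimp only
      rw [Polynomial.eval_prod, Finset.prod_eq_zero (Finset.mem_erase.mpr ⟨hci.symm, hi⟩), smul_zero]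
      rw [Polynomial.eval_sub, Polynomial.eval_C, Polynomial.eval_X, sub_self]
    · intro h; exact absurd hi h
  have h1 : Submodule.span F (Set.range fun c : {c : F // c ≠ 0} => g c) ≤ Submodule.span F S := by
    rw [Submodule.span_le]
    rintro _ ⟨c, rfl⟩
    exact hSA _ (hg c c.2)
  have h2 := Submodule.rank_mono h1
  rw [rank_span hli] at h2
  have h3 : Cardinal.mk (Set.range fun c : {c : F // c ≠ 0} => g c) = Cardinal.mk {c : F // c ≠ 0} :=
    Cardinal.mk_range_eq _ hli.injective
  rw [h3] at h2
  have h4 := h2.trans (rank_span_le S)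
  have h5 : Cardinal.mk S ≤ Cardinal.aleph0 := Cardinal.le_aleph0_iff_set_countable.mpr hS
  have h6 : Countable {c : F // c ≠ 0} := Cardinal.mk_le_aleph0_iff.mp (h4.trans h5)
  have h7 : ({0}ᶜ : Set F).Countable := by
    have : Countable ({0}ᶜ : Set F) := h6
    exact Set.countable_coe_iff.mp this
  have h8 : (Set.univ : Set F).Countable := by
    rw [← Set.union_compl_self ({0} : Set F)]
    exact (Set.countable_singleton 0).union h7
  exact not_countable (α := F) (Set.countable_univ_iff.mp h8)

end simple

end Pool.Agent.U609.WV
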