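import Pool.Agent.U609.WV.Chain
import Pool.Agent.U609.WV.Defs

/-!
The representation of the vector fields `t^n ∂` on Laurent polynomials in two variables.
-/

set_option autoImplicit false
set_option linter.unusedSectionVars false

namespace Pool.Agent.U609.WV

open AddMonoidAlgebra (single)

section two
variable {F : Type} [Field F]

variable (F) in
/-- The partial derivative with respect to `x`. -/
noncomputable def dx : LL F →ₗ[F] LL F := onMon fun v => single (v.1 - 1, v.2) (v.1 : F)

variable (F) in
/-- The partial derivative with respect to `y`. -/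
noncomputable def dy : LL F →ₗ[F] LL F := onMon fun v => single (v.1, v.2 - 1) (v.2 : F)

lemma dx_mon (v : ℤ × ℤ) (c : F) : dx F (single v c) = single (v.1 - 1, v.2) (c * v.1) := by
  unfold dx
  rw [onMon_single, AddMonoidAlgebra.smul_single, smul_eq_mul]

lemma dy_mon (v : ℤ × ℤ) (c : F) : dy F (single v c) = single (v.1, v.2 - 1) (c * v.2) := by
  unfold dy
  rw [onMon_single, AddMonoidAlgebra.smul_single, smul_eq_mul]

lemma dx_mul (f g : LL F) : dx F (f * g) = dx F f * g + f * dx F g := by
  induction f using AddMonoidAlgebra.induction_linear with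
  | zero => simp
  | add f f' hf hf' => rw [add_mul, map_add, hf, hf', map_add]; ring
  | single v c =>
    induction g using AddMonoidAlgebra.induction_linear with
    | zero => simp
    | add g g' hg hg' => rw [mul_add, map_add, hg, hg', map_add]; ring
    | single w d =>
      rw [AddMonoidAlgebra.single_mul_single, dx_mon, dx_mon, dx_mon,
        AddMonoidAlgebra.single_mul_single, AddMonoidAlgebra.single_mul_single]
      have h1 : ((v.1 - 1, v.2) + w : ℤ × ℤ) = ((v + w).1 - 1, (v + w).2) := by
        ext <;> simp; ring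
      have h2 : (v + (w.1 - 1, w.2) : ℤ × ℤ) = ((v + w).1 - 1, (v + w).2) := by
        ext <;> simp; ring
      rw [h1, h2, ← AddMonoidAlgebra.single_add]
      congr 1
      push_cast [Prod.fst_add]
      ring

lemma dy_mul (f g : LL F) : dy F (f * g) = dy F f * g + f * dy F g := by
  induction f using AddMonoidAlgebra.induction_linear with
  | zero => simp
  | add f f' hf hf' => rw [add_mul, map_add, hf, hf', map_add]; ring
  | single v c =>
    induction g using AddMonoidAlgebra.induction_linear with
    | zero => simp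
    | add g g' hg hg' => rw [mul_add, map_add, hg, hg', map_add]; ring
    | single w d =>
      rw [AddMonoidAlgebra.single_mul_single, dy_mon, dy_mon, dy_mon,
        AddMonoidAlgebra.single_mul_single, AddMonoidAlgebra.single_mul_single]
      have h1 : ((v.1, v.2 - 1) + w : ℤ × ℤ) = ((v + w).1, (v + w).2 - 1) := by
        ext <;> simp; ring
      have h2 : (v + (w.1, w.2 - 1) : ℤ × ℤ) = ((v + w).1, (v + w).2 - 1) := by
        ext <;> simp; ring
      rw [h1, h2, ← AddMonoidAlgebra.single_add]
      congr 1
      push_cast [Prod.snd_add]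
      ring

lemma dx_dy (f : LL F) : dx F (dy F f) = dy F (dx F f) := by
  have : dx F ∘ₗ dy F = dy F ∘ₗ dx F := by
    apply ext_mon
    intro v
    simp only [LinearMap.comp_apply, dx_mon, dy_mon]
    congr 1
    ring
  exact LinearMap.congr_fun this f

variable (F) in
/-- `x^n`. -/
noncomputable def px (n : ℤ) : LL F := single (n, 0) 1
variable (F) in
/-- `y^n`. -/
noncomputable def py (n : ℤ) : LL F := single (0, n) 1

lemma px_add (m n : ℤ) : px F (m + n) = px F m * px F n := by
  unfold px
  rw [AddMonoidAlgebra.single_mul_single, Prod.mk_add_mk, add_zero, mul_one]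

lemma py_add (m n : ℤ) : py F (m + n) = py F m * py F n := by
  unfold py
  rw [AddMonoidAlgebra.single_mul_single, Prod.mk_add_mk, add_zero, mul_one]

lemma px_zero : px F 0 = 1 := rfl
lemma py_zero : py F 0 = 1 := rfl

lemma dx_px (n : ℤ) : dx F (px F n) = (n : F) • px F (n - 1) := by
  unfold px
  rw [dx_mon, AddMonoidAlgebra.smul_single, smul_eq_mul, mul_one, one_mul]

lemma dy_py (n : ℤ) : dy F (py F n) = (n : F) • py F (n - 1) := by
  unfold py
  rw [dy_mon, AddMonoidAlgebra.smul_single, smul_eq_mul, mul_one, one_mul]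

lemma dx_py (n : ℤ) : dx F (py F n) = 0 := by
  unfold py
  rw [dx_mon]
  simp

lemma dy_px (n : ℤ) : dy F (px F n) = 0 := by
  unfold px
  rw [dy_mon]
  simp

variable (F) in
/-- Multiplication operators. -/
noncomputable def MM : LL F →ₗ[F] Module.End F (LL F) := LinearMap.mul F (LL F)

lemma MM_apply (f g : LL F) : MM F f g = f * g := rfl

lemma MM_mul (f g : LL F) : MM F (f * g) = MM F f * MM F g := by
  apply LinearMap.ext
  intro h
  rw [Module.End.mul_apply, MM_apply, MM_apply, MM_apply, mul_assoc]

variable (F) in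
/-- The vector field `κ ∂_x` on densities of weight `2`. -/
noncomputable def XX : LL F →ₗ[F] Module.End F (LL F) :=
  LinearMap.mulRight F (dx F : Module.End F (LL F)) ∘ₗ MM F + (2 : F) • (MM F ∘ₗ dx F)

variable (F) in
/-- The vector field `κ ∂_y` on densities of weight `-1`. -/
noncomputable def YY : LL F →ₗ[F] Module.End F (LL F) :=
  LinearMap.mulRight F (dy F : Module.End F (LL F)) ∘ₗ MM F - (MM F ∘ₗ dy F)

lemma XX_apply (k f : LL F) : XX F k f = k * dx F f + (2 : F) • (dx F k * f) := rfl

lemma YY_apply (k f : LL F) : YY F k f = k * dy F f - dy F k * f := rfl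

variable (F) in
/-- The image of `t^n ∂`. -/
noncomputable def ee (n : ℤ) : Module.End F (LL F) := XX F (px F n) + YY F (py F n)

lemma XY_comm (m n : ℤ) : XX F (px F m) * YY F (py F n) = YY F (py F n) * XX F (px F m) := by
  apply LinearMap.ext
  intro f
  simp only [Module.End.mul_apply, XX_apply, YY_apply, map_add, map_sub, map_smul, dx_mul, dy_mul,
    dx_py, dy_px, dx_dy (py F n), ← dx_dy (px F m), dx_dy f]
  simp only [map_zero, Algebra.smul_def]
  ring

lemma px_shift (n k : ℤ) : px F (n - k) = px F n * px F (-k) := by rw [sub_eq_add_neg, px_add]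
lemma py_shift (n k : ℤ) : py F (n - k) = py F n * py F (-k) := by rw [sub_eq_add_neg, py_add]

lemma px_inv : px F 1 * px F (-1) = 1 := by rw [← px_add]; exact px_zero
lemma py_inv : py F 1 * py F (-1) = 1 := by rw [← py_add]; exact py_zero

lemma X_mul (m n : ℤ) (f : LL F) : XX F (px F m) (XX F (px F n) f) =
    px F (m + n) * dx F (dx F f) + ((n : F) + 2 * n + 2 * m) • (px F (m + n - 1) * dx F f) +
      (2 * (n * (n - 1) : F) + 4 * (m * n)) • (px F (m + n - 2) * f) := by
  have e1 : px F (m + n - 1) = px F m * px F n * px F (-1) := by rw [px_shift, px_add]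
  have e2 : px F (m + n - 2) = px F m * px F n * (px F (-1) * px F (-1)) := by
    rw [← px_add (-1) (-1), px_shift, px_add m n]; norm_num
  have e3 : dx F (px F n) = (n : F) • (px F n * px F (-1)) := by rw [dx_px, px_shift]
  have e4 : dx F (px F m) = (m : F) • (px F m * px F (-1)) := by rw [dx_px, px_shift]
  have e5 : dx F (px F n * px F (-1)) = ((n : F) - 1) • (px F n * px F (-1) * px F (-1)) := by
    rw [← px_add, dx_px, px_shift, px_add]
    push_cast
    ring_nf
  simp only [XX_apply, map_add, map_smul, dx_mul, e1, e2, px_add m n]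
  rw [e4, e3]
  simp only [map_smul, smul_mul_assoc, dx_mul] at *
  rw [e5]
  simp only [Algebra.smul_def, map_add, map_mul, map_sub, map_one, map_ofNat]
  ring

lemma Y_mul (m n : ℤ) (f : LL F) : YY F (py F m) (YY F (py F n) f) =
    py F (m + n) * dy F (dy F f) + (-(m : F)) • (py F (m + n - 1) * dy F f) +
      (-(n * (n - 1) : F) + m * n) • (py F (m + n - 2) * f) := by
  have e1 : py F (m + n - 1) = py F m * py F n * py F (-1) := by rw [py_shift, py_add]
  have e2 : py F (m + n - 2) = py F m * py F n * (py F (-1) * py F (-1)) := by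
    rw [← py_add (-1) (-1), py_shift, py_add m n]; norm_num
  have e3 : dy F (py F n) = (n : F) • (py F n * py F (-1)) := by rw [dy_py, py_shift]
  have e4 : dy F (py F m) = (m : F) • (py F m * py F (-1)) := by rw [dy_py, py_shift]
  have e5 : dy F (py F n * py F (-1)) = ((n : F) - 1) • (py F n * py F (-1) * py F (-1)) := by
    rw [← py_add, dy_py, py_shift, py_add]
    push_cast
    ring_nf
  simp only [YY_apply, map_sub, map_smul, dy_mul, e1, e2, py_add m n]
  rw [e4, e3]
  simp only [map_smul, smul_mul_assoc, dy_mul] at *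
  rw [e5]
  simp only [Algebra.smul_def, map_add, map_mul, map_sub, map_one, map_neg]
  ring

lemma X_two (m n : ℤ) : XX F (px F (m + 2)) * XX F (px F n) -
    2 • (XX F (px F (m + 1)) * XX F (px F (n + 1))) + XX F (px F m) * XX F (px F (n + 2)) =
      (-4 : F) • MM F (px F (m + n)) := by
  apply LinearMap.ext
  intro f
  simp only [LinearMap.add_apply, LinearMap.sub_apply, LinearMap.smul_apply, Module.End.mul_apply,
    X_mul, MM_apply]
  rw [show m + 2 + n = m + n + 2 by ring, show m + 1 + (n + 1) = m + n + 2 by ring,
    show m + (n + 2) = m + n + 2 by ring, show m + n + 2 - 2 = m + n by ring]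
  simp only [nsmul_eq_mul, Algebra.smul_def, map_add, map_mul, map_sub, map_one, map_ofNat, map_neg]
  push_cast
  simp only [map_add, map_one, map_ofNat]
  ring

lemma Y_two (m n : ℤ) : YY F (py F (m + 2)) * YY F (py F n) -
    2 • (YY F (py F (m + 1)) * YY F (py F (n + 1))) + YY F (py F m) * YY F (py F (n + 2)) =
      (-4 : F) • MM F (py F (m + n)) := by
  apply LinearMap.ext
  intro f
  simp only [LinearMap.add_apply, LinearMap.sub_apply, LinearMap.smul_apply, Module.End.mul_apply,
    Y_mul, MM_apply]
  rw [show m + 2 + n = m + n + 2 by ring, show m + 1 + (n + 1) = m + n + 2 by ring,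
    show m + (n + 2) = m + n + 2 by ring, show m + n + 2 - 2 = m + n by ring]
  simp only [nsmul_eq_mul, Algebra.smul_def, map_add, map_mul, map_sub, map_one, map_neg]
  push_cast
  simp only [map_add, map_one, map_ofNat]
  ring

/-- `x^m (t^n ∂)_y`. -/
lemma pY (m n : ℤ) : MM F (px F m) * YY F (py F n) = YY F (px F m * py F n) := by
  apply LinearMap.ext
  intro f
  rw [Module.End.mul_apply, MM_apply, YY_apply, YY_apply, dy_mul, dy_px]
  ring

lemma qX (m n : ℤ) : MM F (py F m) * XX F (px F n) = XX F (py F m * px F n) := by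
  apply LinearMap.ext
  intro f
  rw [Module.End.mul_apply, MM_apply, XX_apply, XX_apply, dx_mul, dx_py]
  simp only [Algebra.smul_def]
  ring

lemma pX_two (m n : ℤ) : MM F (px F (m + 2)) * XX F (px F n) -
    2 • (MM F (px F (m + 1)) * XX F (px F (n + 1))) + MM F (px F m) * XX F (px F (n + 2)) = 0 := by
  apply LinearMap.ext
  intro f
  simp only [LinearMap.add_apply, LinearMap.sub_apply, LinearMap.smul_apply, Module.End.mul_apply,
    XX_apply, MM_apply, LinearMap.zero_apply, dx_px]
  have e1 : px F (m + 2) = px F m * (px F 1 * px F 1) := by rw [← px_add, ← px_add]; norm_num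
  have e2 : px F (m + 1) = px F m * px F 1 := px_add _ _
  have e3 : px F (n + 2) = px F n * (px F 1 * px F 1) := by rw [← px_add, ← px_add]; norm_num
  have e4 : px F (n + 1) = px F n * px F 1 := px_add _ _
  have e5 : px F (n + 1 - 1) = px F n := by rw [add_sub_cancel_right]
  have e6 : px F (n + 2 - 1) = px F n * px F 1 := by rw [← px_add]; congr 1; ring
  have e7 : px F n = px F (n - 1) * px F 1 := by rw [← px_add, sub_add_cancel]
  rw [e1, e2, e3, e4, e5, e6, e7]
  simp only [nsmul_eq_mul, Algebra.smul_def, map_ofNat]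
  push_cast
  simp only [map_add, map_one, map_ofNat]
  ring

lemma qY_two (m n : ℤ) : MM F (py F (m + 2)) * YY F (py F n) -
    2 • (MM F (py F (m + 1)) * YY F (py F (n + 1))) + MM F (py F m) * YY F (py F (n + 2)) = 0 := by
  apply LinearMap.ext
  intro f
  simp only [LinearMap.add_apply, LinearMap.sub_apply, LinearMap.smul_apply, Module.End.mul_apply,
    YY_apply, MM_apply, LinearMap.zero_apply, dy_py]
  have e1 : py F (m + 2) = py F m * (py F 1 * py F 1) := by rw [← py_add, ← py_add]; norm_num
  have e2 : py F (m + 1) = py F m * py F 1 := py_add _ _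
  have e3 : py F (n + 2) = py F n * (py F 1 * py F 1) := by rw [← py_add, ← py_add]; norm_num
  have e4 : py F (n + 1) = py F n * py F 1 := py_add _ _
  have e5 : py F (n + 1 - 1) = py F n := by rw [add_sub_cancel_right]
  have e6 : py F (n + 2 - 1) = py F n * py F 1 := by rw [← py_add]; congr 1; ring
  have e7 : py F n = py F (n - 1) * py F 1 := by rw [← py_add, sub_add_cancel]
  rw [e1, e2, e3, e4, e5, e6, e7]
  simp only [nsmul_eq_mul, Algebra.smul_def]
  push_cast
  simp only [map_add, map_one, map_ofNat]
  ring

end two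

end Pool.Agent.U609.WV
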